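import Pool.Agent.Work.MP_0f1f76_lc.InputMain

/-!
# The sensitivity lower bound for randomized algorithms
-/

namespace Pool.Agent.Work.MP_0f1f76_lc

open Finset

variable {n S w : ℕ}

theorem input_rand (R : RandAlg n S w) (hn : 1 ≤ n) (herr : avgInput R.errProb ≤ 1 / 3)
    (Δ k : ℕ) (hk : k = n / 6 + 1)
    (hΔ : 12 * ((Δ * 2 ^ w + n * (Δ * (2 ^ w + 1)) + 1) ^ Δ * 2 ^ n * 2 ^ (n * (n - k))) ≤
      2 ^ (n * n)) :
    (n : ℝ) * ((Δ + 1) / 12) ≤ avgInput R.expProbes + avgInput R.expSens := by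
  classical
  set N : ℝ := (Fintype.card (Mat n) : ℝ) * Fintype.card (Fin n → Vec n) with hN
  have hNpos : (0 : ℝ) < N := by
    have h1 : (0 : ℝ) < Fintype.card (Mat n) := by exact_mod_cast Fintype.card_pos
    have h2 : (0 : ℝ) < Fintype.card (Fin n → Vec n) := by exact_mod_cast Fintype.card_pos
    exact mul_pos h1 h2
  have herr' : ∑ M : Mat n, ∑ vs : Fin n → Vec n, R.errProb M vs ≤ N / 3 := by
    have := herr
    unfold avgInput at this
    rw [div_le_iff₀ hNpos] at this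
    linarith
  have hΔpos : (0 : ℝ) < (Δ : ℝ) + 1 := by positivity
  -- one round
  have h1 : ∀ i : Fin n, N * ((Δ + 1) / 12) ≤
      ∑ ω, R.prob ω * ∑ M : Mat n, ∑ vs : Fin n → Vec n, (kap (R.alg ω) i M vs : ℝ) := by
    intro i
    have hω : ∀ ω, R.prob ω * (N * (3 / 4)) ≤
        R.prob ω * ((∑ M : Mat n, ∑ vs : Fin n → Vec n, (kap (R.alg ω) i M vs : ℝ)) / (Δ + 1) +
      2 * ∑ M : Mat n, ∑ vs : Fin n → Vec n,
        (if (R.alg ω).Correct M vs then (0 : ℝ) else 1)) := by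
      intro ω
      refine mul_le_mul_of_nonneg_left ?_ (R.prob_nonneg ω)
      have := input_round (R.alg ω) i hn Δ k hk hΔ
      simp only [Finset.sum_const, nsmul_eq_mul, Finset.card_univ] at this
      rw [hN, mul_assoc]
      exact this
    have hs := Finset.sum_le_sum fun ω (_ : ω ∈ (univ : Finset R.Seed)) => hω ω
    rw [← Finset.sum_mul, R.prob_sum, one_mul] at hs
    have e1 : ∑ ω, R.prob ω * ((∑ M : Mat n, ∑ vs : Fin n → Vec n,
          (kap (R.alg ω) i M vs : ℝ)) / (Δ + 1) +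
        2 * ∑ M : Mat n, ∑ vs : Fin n → Vec n,
        (if (R.alg ω).Correct M vs then (0 : ℝ) else 1)) =
        (∑ ω, R.prob ω * ∑ M : Mat n, ∑ vs : Fin n → Vec n, (kap (R.alg ω) i M vs : ℝ)) / (Δ + 1)
        + 2 * ∑ M : Mat n, ∑ vs : Fin n → Vec n, R.errProb M vs := by
      simp only [mul_add, Finset.sum_add_distrib]
      congr 1
      · rw [Finset.sum_div]
        exact Finset.sum_congr rfl fun ω _ => by rw [mul_div_assoc]
      · simp only [RandAlg.errProb, Finset.mul_sum]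
        rw [Finset.sum_comm]
        refine Finset.sum_congr rfl fun M _ => ?_
        rw [Finset.sum_comm]
        refine Finset.sum_congr rfl fun vs _ => Finset.sum_congr rfl fun ω _ => ?_
        split_ifs <;> ring
    rw [e1] at hs
    have h3 : N / 12 ≤
        (∑ ω, R.prob ω * ∑ M : Mat n, ∑ vs : Fin n → Vec n, (kap (R.alg ω) i M vs : ℝ)) / (Δ + 1) := by
      linarith
    rw [le_div_iff₀ hΔpos] at h3
    linarith
  -- all rounds
  have h2 := Finset.sum_le_sum fun i (_ : i ∈ (univ : Finset (Fin n))) => h1 i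
  rw [Finset.sum_const, Finset.card_univ, Fintype.card_fin, nsmul_eq_mul] at h2
  have e2 : ∑ i : Fin n, ∑ ω, R.prob ω * ∑ M : Mat n, ∑ vs : Fin n → Vec n,
      (kap (R.alg ω) i M vs : ℝ) =
      ∑ M : Mat n, ∑ vs : Fin n → Vec n, R.expProbes M vs +
      ∑ M : Mat n, ∑ vs : Fin n → Vec n, R.expSens M vs := by
    have e3 : ∀ ω, ∑ i : Fin n, ∑ M : Mat n, ∑ vs : Fin n → Vec n,
        (kap (R.alg ω) i M vs : ℝ) = ∑ M : Mat n, ∑ vs : Fin n → Vec n,
        (((R.alg ω).probes M vs : ℝ) + ((R.alg ω).sensCost M vs : ℝ)) := by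
      intro ω
      rw [Finset.sum_comm]
      refine Finset.sum_congr rfl fun M _ => ?_
      rw [Finset.sum_comm]
      refine Finset.sum_congr rfl fun vs _ => ?_
      exact_mod_cast (probes_add_sensCost (R.alg ω) M vs).symm
    calc _ = ∑ ω, R.prob ω * ∑ i : Fin n, ∑ M : Mat n, ∑ vs : Fin n → Vec n,
          (kap (R.alg ω) i M vs : ℝ) := by
          rw [Finset.sum_comm]
          exact Finset.sum_congr rfl fun ω _ => by rw [Finset.mul_sum]
      _ = ∑ ω, ∑ M : Mat n, ∑ vs : Fin n → Vec n, R.prob ω *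
          (((R.alg ω).probes M vs : ℝ) + ((R.alg ω).sensCost M vs : ℝ)) := by
          refine Finset.sum_congr rfl fun ω _ => ?_
          rw [e3 ω]
          simp only [Finset.mul_sum]
      _ = ∑ M : Mat n, ∑ vs : Fin n → Vec n, ∑ ω, R.prob ω *
          (((R.alg ω).probes M vs : ℝ) + ((R.alg ω).sensCost M vs : ℝ)) := by
          rw [Finset.sum_comm]
          exact Finset.sum_congr rfl fun M _ => Finset.sum_comm
      _ = _ := by
          unfold RandAlg.expProbes RandAlg.expSens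
          simp only [mul_add, Finset.sum_add_distrib]
  rw [e2] at h2
  unfold avgInput
  rw [← add_div, le_div_iff₀ hNpos]
  calc (n : ℝ) * ((Δ + 1) / 12) * N = n * (N * ((Δ + 1) / 12)) := by ring
    _ ≤ _ := h2

theorem input_main {ℓ : ℕ} (hn : 16 ≤ n) (hw : 1 ≤ w) (hℓ : n ≤ 2 ^ ℓ) (R : RandAlg n S w)
    (herr : avgInput R.errProb ≤ 1 / 3) :
    (n : ℝ) ^ 3 ≤ 432 * ((w : ℝ) + ℓ) * (avgInput R.expProbes + avgInput R.expSens) := by
  set β := w + 3 * ℓ + 2 with hβ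
  set Δ := (n ^ 2 - 6 * n - 24) / (6 * β) with hΔdef
  have hβpos : 0 < 6 * β := by omega
  have hΔ1 : 6 * β * Δ ≤ n ^ 2 - 6 * n - 24 := Nat.mul_div_le _ _
  have hΔ2 : n ^ 2 - 6 * n - 24 < 6 * β * (Δ + 1) := by
    have := Nat.lt_mul_div_succ (n ^ 2 - 6 * n - 24) hβpos
    simpa [hΔdef] using this
  have hn2 : 16 * n ≤ n ^ 2 := by nlinarith
  have hΔn : Δ ≤ n ^ 2 := by
    have : Δ ≤ 6 * β * Δ := Nat.le_mul_of_pos_left _ hβpos
    omega
  have hΔn' : 6 * Δ ≤ n ^ 2 := by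
    have : 6 * Δ ≤ 6 * β * Δ := by
      have : 1 ≤ β := by omega
      nlinarith
    omega
  -- token bound
  have htok : Δ * 2 ^ w + n * (Δ * (2 ^ w + 1)) + 1 ≤ 2 ^ β := by
    have h2w : 1 ≤ 2 ^ w := Nat.one_le_two_pow
    have h1 : Δ * 2 ^ w + n * (Δ * (2 ^ w + 1)) + 1 ≤ 2 ^ w * (Δ + 2 * n * Δ + 1) := by
      nlinarith [Nat.zero_le (n * Δ), Nat.mul_le_mul_left (n * Δ) h2w]
    have h2 : Δ + 2 * n * Δ + 1 ≤ n ^ 3 := by
      have h3 : 6 * (Δ + 2 * n * Δ + 1) ≤ n ^ 2 + 2 * n * n ^ 2 + 6 := by nlinarith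
      have h4 : n ^ 2 + 2 * n * n ^ 2 + 6 ≤ 6 * n ^ 3 := by
        have : n ^ 3 = n * n ^ 2 := by ring
        nlinarith
      omega
    have h3 : n ^ 3 ≤ 2 ^ (3 * ℓ) := by
      calc n ^ 3 ≤ (2 ^ ℓ) ^ 3 := Nat.pow_le_pow_left hℓ 3
        _ = 2 ^ (3 * ℓ) := by rw [← pow_mul, Nat.mul_comm]
    calc _ ≤ 2 ^ w * (Δ + 2 * n * Δ + 1) := h1
      _ ≤ 2 ^ w * 2 ^ (3 * ℓ) := Nat.mul_le_mul_left _ (h2.trans h3)
      _ = 2 ^ (w + 3 * ℓ) := by rw [← pow_add]
      _ ≤ 2 ^ β := Nat.pow_le_pow_right (by norm_num) (by omega)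
  set k := n / 6 + 1 with hk
  have hkn : k ≤ n := by omega
  have hexp : 12 * ((Δ * 2 ^ w + n * (Δ * (2 ^ w + 1)) + 1) ^ Δ * 2 ^ n * 2 ^ (n * (n - k))) ≤
      2 ^ (n * n) := by
    calc 12 * ((Δ * 2 ^ w + n * (Δ * (2 ^ w + 1)) + 1) ^ Δ * 2 ^ n * 2 ^ (n * (n - k)))
        ≤ 2 ^ 4 * ((2 ^ β) ^ Δ * 2 ^ n * 2 ^ (n * (n - k))) := by
          refine Nat.mul_le_mul (by norm_num) ?_
          refine Nat.mul_le_mul_right _ (Nat.mul_le_mul_right _ (Nat.pow_le_pow_left htok _))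
      _ = 2 ^ (4 + (β * Δ + n + n * (n - k))) := by
          rw [← pow_mul, ← pow_add, ← pow_add, ← pow_add]
      _ ≤ 2 ^ (n * n) := by
          refine Nat.pow_le_pow_right (by norm_num) ?_
          have h1 : n * (n - k) + n * k = n * n := by
            rw [← Nat.mul_add]
            congr 1
            omega
          have h2 : n ≤ 6 * k := by omega
          have h3 : n * n ≤ 6 * (n * k) := by nlinarith
          have h4 : 6 * (β * Δ) ≤ n ^ 2 - 6 * n - 24 := by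
            calc 6 * (β * Δ) = 6 * β * Δ := by ring
              _ ≤ _ := hΔ1
          have h5 : n ^ 2 = n * n := by ring
          omega
  have h := input_rand R (by omega) herr Δ k hk hexp
  -- final computation
  have hfin : n ^ 2 ≤ 12 * (β * (Δ + 1)) := by
    have h1 : n ^ 2 ≤ 2 * (n ^ 2 - 6 * n - 24) := by
      have : 12 * n + 48 ≤ n ^ 2 := by nlinarith
      omega
    have h2 : 12 * (β * (Δ + 1)) = 2 * (6 * β * (Δ + 1)) := by ring
    omega
  have hβw : β ≤ 3 * (w + ℓ) := by omega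
  have hpos : 0 ≤ avgInput R.expProbes + avgInput R.expSens :=
    le_trans (by positivity) h
  have hfinR : (n : ℝ) ^ 2 ≤ 12 * (β * (Δ + 1)) := by exact_mod_cast hfin
  have hβR : (β : ℝ) ≤ 3 * (w + ℓ) := by exact_mod_cast hβw
  calc (n : ℝ) ^ 3 = (n : ℝ) * (n : ℝ) ^ 2 := by ring
    _ ≤ (n : ℝ) * (12 * ((β : ℝ) * ((Δ : ℝ) + 1))) := by gcongr
    _ = 144 * (β : ℝ) * ((n : ℝ) * (((Δ : ℝ) + 1) / 12)) := by ring
    _ ≤ 144 * (β : ℝ) * (avgInput R.expProbes + avgInput R.expSens) := by gcongr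
    _ ≤ 144 * (3 * ((w : ℝ) + ℓ)) * (avgInput R.expProbes + avgInput R.expSens) := by gcongr
    _ = _ := by ring

end Pool.Agent.Work.MP_0f1f76_lc
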