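import Pool.Agent.Work.MP_0f1f76_lc.Bias

/-!
# Averaging over matrices and query vectors
-/

namespace Pool.Agent.Work.MP_0f1f76_lc

open Finset

/-- Resampling one coordinate does not change sums over all functions. -/
theorem sum_update {I X : Type} [Fintype I] [DecidableEq I] [Fintype X] (a : I)
    (F : (I → X) → ℝ) :
    ∑ f : I → X, ∑ x, F (Function.update f a x) = Fintype.card X * ∑ f, F f := by
  classical
  have h : ∑ q : (I → X) × X, F (Function.update q.1 a q.2) = ∑ q : (I → X) × X, F q.1 := by
    refine Fintype.sum_bijective (fun q : (I → X) × X => (Function.update q.1 a q.2, q.1 a))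
      (Function.Involutive.bijective ?_) _ _ ?_
    · rintro ⟨f, x⟩
      simp
    · rintro ⟨f, x⟩
      rfl
  rw [Fintype.sum_prod_type, Fintype.sum_prod_type] at h
  rw [h, Finset.mul_sum]
  refine Finset.sum_congr rfl fun f _ => ?_
  dsimp only
  rw [Finset.sum_const, Finset.card_univ, nsmul_eq_mul]

variable {n S w : ℕ}

open scoped Classical in
/-- Number of probes, in round `i`, of cells that depend on row `a`. -/
noncomputable def rhits (A : OnlineAlg n S w) (i a : Fin n) (M : Mat n) (vs : Fin n → Vec n) : ℕ :=
  (A.query i vs).hits (fun c => a ∈ rowDeps fun M' => A.mem i vs M' c) (A.mem i vs M)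

theorem map_card_sum {α : Type} [DecidableEq α] [Fintype α] {C : Type} (D : C → Finset α)
    (l : List C) :
    (l.map fun c => (D c).card).sum = ∑ a, (l.filter fun c => a ∈ D c).length := by
  induction l with
  | nil => simp
  | cons c l ih =>
    rw [List.map_cons, List.sum_cons, ih]
    have : ∀ a, ((c :: l).filter fun c => a ∈ D c).length =
        (if a ∈ D c then 1 else 0) + (l.filter fun c => a ∈ D c).length := by
      intro a
      by_cases h : a ∈ D c
      · simp [h]; omega
      · simp [h]
    simp only [this, Finset.sum_add_distrib]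
    simp

theorem rowCost_eq (A : OnlineAlg n S w) (M : Mat n) (vs : Fin n → Vec n) :
    A.rowCost M vs = ∑ i, ∑ a, rhits A i a M vs := by
  classical
  unfold OnlineAlg.rowCost rhits Strat.hits
  refine Finset.sum_congr rfl fun i _ => ?_
  exact map_card_sum _ _

theorem rowCost_le (A : OnlineAlg n S w) {r : ℕ} (hA : A.RowLocal r) (M : Mat n)
    (vs : Fin n → Vec n) : A.rowCost M vs ≤ r * A.probes M vs := by
  unfold OnlineAlg.rowCost OnlineAlg.probes
  rw [Finset.mul_sum]
  refine Finset.sum_le_sum fun i _ => ?_
  generalize (A.query i vs).probed (A.mem i vs M) = l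
  induction l with
  | nil => simp
  | cons c l ih =>
    rw [List.map_cons, List.sum_cons, List.length_cons]
    have := hA i vs c
    nlinarith

theorem not_mem_rowDeps {α : Type} {f : Mat n → α} {a : Fin n} (h : a ∉ rowDeps f) (M : Mat n)
    (x : Vec n) : f (M.updateRow a x) = f M := by
  classical
  by_contra hne
  exact h (by simp only [rowDeps, Finset.mem_filter, Finset.mem_univ, true_and]; exact ⟨M, x, hne⟩)

/-- The indicator that the `a`-th bit of the `i`-th output is wrong. -/
def Wrong (A : OnlineAlg n S w) (i a : Fin n) (M : Mat n) (vs : Fin n → Vec n) : Prop :=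
  (A.query i vs).output (A.mem i vs M) a ≠ M.mulVec (vs i) a

/-- Bound for fixed remaining data. -/
theorem inner_bound (A : OnlineAlg n S w) (i a : Fin n) (M : Mat n) (vs : Fin n → Vec n) (k : ℕ) :
    |∑ v : Vec n, ∑ x : Vec n, (if rhits A i a (M.updateRow a x) (Function.update vs i v) ≤ k
        then chi ((A.query i (Function.update vs i v)).output
          (A.mem i (Function.update vs i v) (M.updateRow a x)) a) *
          chi ((M.updateRow a x).mulVec ((Function.update vs i v) i) a) else 0)| ≤
      Bk ((S : ℝ) * 2 ^ w) k * Real.sqrt (2 ^ (3 * n)) := by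
  classical
  have hmem : ∀ v, A.mem i (Function.update vs i v) = A.mem i vs := by
    intro v
    refine A.mem_past i _ _ fun j hj => ?_
    rw [Function.update_of_ne (ne_of_lt hj)]
  have key := bias_le (V := Vec n) (X := Vec n) (Cell := Fin S) (Content := Word w)
    (Out := Vec n) (fun v x => chi (x ⬝ᵥ v)) (Real.sqrt (2 ^ (3 * n)))
    (fun α β hα hβ => Real.abs_le_sqrt (lindsey_sq α β hα hβ))
    (fun c => a ∈ rowDeps fun M' => A.mem i vs M' c) (A.mem i vs M)
    (fun x => A.mem i vs (M.updateRow a x))
    (fun x c hc => not_mem_rowDeps (f := fun M' => A.mem i vs M' c) hc M x)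
    (fun o => chi (o a)) (fun o => (abs_chi _).le) k (fun _ => 1) (fun _ => 1)
    (by simp) (by simp) (fun v => A.query i (Function.update vs i v))
  have hcard : (Fintype.card (Fin S) : ℝ) * Fintype.card (Word w) = (S : ℝ) * 2 ^ w := by
    simp
  rw [hcard] at key
  refine le_of_eq_of_le ?_ key
  congr 1
  refine Finset.sum_congr rfl fun v _ => Finset.sum_congr rfl fun x _ => ?_
  have hr : rhits A i a (M.updateRow a x) (Function.update vs i v) =
      (A.query i (Function.update vs i v)).hits
        (fun c => a ∈ rowDeps fun M' => A.mem i vs M' c) (A.mem i vs (M.updateRow a x)) := by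
    unfold rhits
    rw [hmem v]
  have hrow : (M.updateRow a x).mulVec ((Function.update vs i v) i) a = x ⬝ᵥ v := by
    rw [Function.update_self]
    simp [Matrix.mulVec]
  rw [hr, hrow, hmem v]
  unfold Strat.tval
  split_ifs
  · ring
  · ring

/-- The deterministic estimate, summed over all inputs. -/
theorem det_bound (A : OnlineAlg n S w) (i a : Fin n) (k : ℕ) :
    ∑ M : Mat n, ∑ vs : Fin n → Vec n, (if rhits A i a M vs ≤ k
        then chi ((A.query i vs).output (A.mem i vs M) a) * chi (M.mulVec (vs i) a) else 0) *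
        (2 : ℝ) ^ (2 * n) ≤
      ∑ _M : Mat n, ∑ _vs : Fin n → Vec n,
        Bk ((S : ℝ) * 2 ^ w) k * Real.sqrt (2 ^ (3 * n)) := by
  classical
  have hcard : (Fintype.card (Vec n) : ℝ) = 2 ^ n := by simp [ZMod.card]
  set F : Mat n → (Fin n → Vec n) → ℝ := fun M vs => if rhits A i a M vs ≤ k
        then chi ((A.query i vs).output (A.mem i vs M) a) * chi (M.mulVec (vs i) a) else 0 with hF
  have h1 : ∀ M, ∑ vs : Fin n → Vec n, ∑ v, F M (Function.update vs i v) =
      2 ^ n * ∑ vs, F M vs := by
    intro M
    rw [sum_update i (fun vs => F M vs), hcard]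
  have h2 : ∀ vs, ∑ M : Mat n, ∑ x, F (M.updateRow a x) vs = 2 ^ n * ∑ M, F M vs := by
    intro vs
    have := sum_update (I := Fin n) (X := Vec n) a (fun M => F (Matrix.of M) vs)
    rw [hcard] at this
    exact this
  have h3 : ∑ M : Mat n, ∑ vs : Fin n → Vec n, F M vs * (2 : ℝ) ^ (2 * n) =
      ∑ M : Mat n, ∑ vs : Fin n → Vec n, ∑ v, ∑ x,
        F (M.updateRow a x) (Function.update vs i v) := by
    calc ∑ M : Mat n, ∑ vs : Fin n → Vec n, F M vs * (2 : ℝ) ^ (2 * n)
        = 2 ^ n * ∑ M : Mat n, (2 ^ n * ∑ vs, F M vs) := by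
          rw [Finset.mul_sum]
          refine Finset.sum_congr rfl fun M _ => ?_
          rw [← Finset.sum_mul]
          ring
      _ = 2 ^ n * ∑ M : Mat n, ∑ vs : Fin n → Vec n, ∑ v, F M (Function.update vs i v) := by
          congr 1
          exact Finset.sum_congr rfl fun M _ => (h1 M).symm
      _ = ∑ vs : Fin n → Vec n, ∑ v, 2 ^ n * ∑ M : Mat n, F M (Function.update vs i v) := by
          rw [Finset.sum_comm, Finset.mul_sum]
          refine Finset.sum_congr rfl fun vs _ => ?_
          rw [Finset.sum_comm, Finset.mul_sum]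
      _ = ∑ vs : Fin n → Vec n, ∑ v, ∑ M : Mat n, ∑ x,
            F (M.updateRow a x) (Function.update vs i v) := by
          refine Finset.sum_congr rfl fun vs _ => Finset.sum_congr rfl fun v _ => ?_
          rw [h2]
      _ = _ := by
          rw [Finset.sum_comm (s := (univ : Finset (Mat n)))]
          refine Finset.sum_congr rfl fun vs _ => ?_
          rw [Finset.sum_comm (s := (univ : Finset (Mat n)))]
  rw [h3]
  refine Finset.sum_le_sum fun M _ => Finset.sum_le_sum fun vs _ => ?_
  exact (le_abs_self _).trans (inner_bound A i a M vs k)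

end Pool.Agent.Work.MP_0f1f76_lc
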