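import Mathlib

/-!
# Lindsey's lemma for the inner product over `𝔽₂`
-/

namespace Pool.Agent.Work.MP_0f1f76_lc

/-- The nontrivial additive character of `𝔽₂`. -/
def chi (t : ZMod 2) : ℝ := if t = 0 then 1 else -1

theorem zmod2_cases (t : ZMod 2) : t = 0 ∨ t = 1 := by
  revert t; decide

theorem chi_add (s t : ZMod 2) : chi (s + t) = chi s * chi t := by
  have h11 : (1 : ZMod 2) + 1 = 0 := by decide
  rcases zmod2_cases s with rfl | rfl <;> rcases zmod2_cases t with rfl | rfl <;>
    simp [chi, h11]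

theorem chi_zero : chi 0 = 1 := by simp [chi]

theorem chi_one : chi 1 = -1 := by simp [chi]

theorem chi_mul_self (t : ZMod 2) : chi t * chi t = 1 := by
  rcases zmod2_cases t with rfl | rfl <;> simp [chi]

theorem abs_chi (t : ZMod 2) : |chi t| = 1 := by
  rcases zmod2_cases t with rfl | rfl <;> simp [chi]

theorem chi_mul_chi (s t : ZMod 2) : chi s * chi t = if s = t then 1 else -1 := by
  rcases zmod2_cases s with rfl | rfl <;> rcases zmod2_cases t with rfl | rfl <;>
    simp [chi]

variable {n : ℕ}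

/-- Orthogonality of characters. -/
theorem sum_chi (x : Fin n → ZMod 2) :
    ∑ v : Fin n → ZMod 2, chi (x ⬝ᵥ v) = if x = 0 then (2 : ℝ) ^ n else 0 := by
  classical
  split_ifs with h
  · subst h
    simp [chi, ZMod.card]
  · obtain ⟨j, hj⟩ : ∃ j, x j ≠ 0 := by
      by_contra hcon
      push Not at hcon
      exact h (funext hcon)
    have hj1 : x j = 1 := (zmod2_cases (x j)).resolve_left hj
    have key : ∑ v : Fin n → ZMod 2, chi (x ⬝ᵥ v) = ∑ v : Fin n → ZMod 2, -chi (x ⬝ᵥ v) := by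
      refine Fintype.sum_equiv (Equiv.addRight (Pi.single j 1)) _ _ fun v => ?_
      rw [Equiv.coe_addRight, dotProduct_add, dotProduct_single, hj1, mul_one, chi_add, chi_one]
      ring
    rw [Finset.sum_neg_distrib] at key
    linarith

/-- Lindsey's lemma. -/
theorem lindsey_sq (α β : (Fin n → ZMod 2) → ℝ) (hα : ∀ v, |α v| ≤ 1) (hβ : ∀ x, |β x| ≤ 1) :
    (∑ v, ∑ x, α v * β x * chi (x ⬝ᵥ v)) ^ 2 ≤ (2 : ℝ) ^ (3 * n) := by
  classical
  have hcard : (Fintype.card (Fin n → ZMod 2) : ℝ) = 2 ^ n := by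
    simp [ZMod.card]
  have hα2 : ∑ v, α v ^ 2 ≤ (2 : ℝ) ^ n := by
    calc ∑ v, α v ^ 2 ≤ ∑ _v : Fin n → ZMod 2, (1 : ℝ) :=
          Finset.sum_le_sum fun v _ => by
            have := (sq_abs (α v)).symm
            rw [this]
            exact pow_le_one₀ (abs_nonneg _) (hα v)
      _ = 2 ^ n := by
          rw [Finset.sum_const, Finset.card_univ, nsmul_eq_mul, mul_one, hcard]
  have hβ2 : ∑ x, β x ^ 2 ≤ (2 : ℝ) ^ n := by
    calc ∑ x, β x ^ 2 ≤ ∑ _x : Fin n → ZMod 2, (1 : ℝ) :=
          Finset.sum_le_sum fun v _ => by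
            have := (sq_abs (β v)).symm
            rw [this]
            exact pow_le_one₀ (abs_nonneg _) (hβ v)
      _ = 2 ^ n := by
          rw [Finset.sum_const, Finset.card_univ, nsmul_eq_mul, mul_one, hcard]
  have h1 : ∑ v, ∑ x, α v * β x * chi (x ⬝ᵥ v) = ∑ v, α v * ∑ x, β x * chi (x ⬝ᵥ v) := by
    refine Finset.sum_congr rfl fun v _ => ?_
    rw [Finset.mul_sum]
    exact Finset.sum_congr rfl fun x _ => by ring
  have h2 : ∑ v : Fin n → ZMod 2, (∑ x, β x * chi (x ⬝ᵥ v)) ^ 2 = 2 ^ n * ∑ x, β x ^ 2 := by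
    have hexp : ∀ v : Fin n → ZMod 2, (∑ x, β x * chi (x ⬝ᵥ v)) ^ 2
        = ∑ x, ∑ y, β x * β y * chi ((x + y) ⬝ᵥ v) := by
      intro v
      rw [sq, Finset.sum_mul_sum]
      refine Finset.sum_congr rfl fun x _ => Finset.sum_congr rfl fun y _ => ?_
      rw [add_dotProduct, chi_add]; ring
    calc ∑ v : Fin n → ZMod 2, (∑ x, β x * chi (x ⬝ᵥ v)) ^ 2
        = ∑ v : Fin n → ZMod 2, ∑ x, ∑ y, β x * β y * chi ((x + y) ⬝ᵥ v) :=
          Finset.sum_congr rfl fun v _ => hexp v
      _ = ∑ x, ∑ y, ∑ v : Fin n → ZMod 2, β x * β y * chi ((x + y) ⬝ᵥ v) := by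
          rw [Finset.sum_comm]
          exact Finset.sum_congr rfl fun x _ => Finset.sum_comm
      _ = ∑ x, ∑ y, β x * β y * (if x = y then (2 : ℝ) ^ n else 0) := by
          refine Finset.sum_congr rfl fun x _ => Finset.sum_congr rfl fun y _ => ?_
          rw [← Finset.mul_sum, sum_chi]
          congr 1
          have : x + y = 0 ↔ x = y := by
            constructor
            · intro h
              have hy : -y = y := by
                funext i
                have : ∀ t : ZMod 2, -t = t := by decide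
                exact this _
              rw [← hy]
              exact eq_neg_of_add_eq_zero_left h
            · rintro rfl
              funext i
              have : ∀ t : ZMod 2, t + t = 0 := by decide
              exact this _
          simp only [this]
      _ = 2 ^ n * ∑ x, β x ^ 2 := by
          rw [Finset.mul_sum]
          refine Finset.sum_congr rfl fun x _ => ?_
          simp only [mul_ite, mul_zero, Finset.sum_ite_eq, Finset.mem_univ, if_true]
          ring
  rw [h1]
  calc (∑ v, α v * ∑ x, β x * chi (x ⬝ᵥ v)) ^ 2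
      ≤ (∑ v, α v ^ 2) * ∑ v, (∑ x, β x * chi (x ⬝ᵥ v)) ^ 2 :=
        Finset.sum_mul_sq_le_sq_mul_sq _ _ _
    _ = (∑ v, α v ^ 2) * (2 ^ n * ∑ x, β x ^ 2) := by rw [h2]
    _ ≤ 2 ^ n * (2 ^ n * 2 ^ n) := by
        have h0 : 0 ≤ ∑ x, β x ^ 2 := Finset.sum_nonneg fun x _ => sq_nonneg _
        gcongr
    _ = 2 ^ (3 * n) := by ring

end Pool.Agent.Work.MP_0f1f76_lc
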