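import Pool.Agent.Work.MP_0f1f76_lc.Defs
import Pool.Agent.Work.MP_0f1f76_lc.Lindsey

/-!
# Adaptive strategies that rarely touch the relevant cells have small bias
-/

namespace Pool.Agent.Work.MP_0f1f76_lc

open Finset

namespace Strat

variable {Cell Content Out : Type}

/-- Resolve the probes of untouched cells (those outside `H`), whose contents `κ` are known. -/
def head (H : Cell → Prop) [DecidablePred H] (κ : Cell → Content) :
    Strat Cell Content Out → Out ⊕ (Cell × (Content → Strat Cell Content Out))
  | answer o => Sum.inl o
  | probe c next => if H c then Sum.inr (c, next) else (next (κ c)).head H κ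

/-- Number of probes that fall in `H`. -/
def hits (H : Cell → Prop) [DecidablePred H] (mem : Cell → Content)
    (s : Strat Cell Content Out) : ℕ :=
  ((s.probed mem).filter fun c => H c).length

variable {H : Cell → Prop} [DecidablePred H] {κ mem : Cell → Content}

theorem head_spec (hm : ∀ c, ¬ H c → mem c = κ c) (s : Strat Cell Content Out) :
    (∀ o, s.head H κ = Sum.inl o → s.output mem = o ∧ s.hits H mem = 0) ∧
    (∀ c next, s.head H κ = Sum.inr (c, next) →
      s.output mem = (next (mem c)).output mem ∧
      s.hits H mem = (next (mem c)).hits H mem + 1) := by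
  induction s with
  | answer o =>
    refine ⟨fun o' h => ?_, fun c next h => ?_⟩
    · simp only [head, Sum.inl.injEq] at h
      subst h
      simp [output, hits, probed]
    · simp [head] at h
  | probe c next ih =>
    by_cases hc : H c
    · refine ⟨fun o' h => ?_, fun c' next' h => ?_⟩
      · simp [head, hc] at h
      · simp only [head, hc, if_true, Sum.inr.injEq, Prod.mk.injEq] at h
        obtain ⟨rfl, rfl⟩ := h
        simp [output, hits, probed, hc]
    · have e1 : (probe c next).head H κ = (next (κ c)).head H κ := by simp [head, hc]
      have e2 : (probe c next).output mem = (next (κ c)).output mem := by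
        simp [output, hm c hc]
      have e3 : (probe c next).hits H mem = (next (κ c)).hits H mem := by
        simp [hits, probed, hc, hm c hc]
      rw [e1, e2, e3]
      exact ih (κ c)

/-- Truncated value. -/
noncomputable def tval (H : Cell → Prop) [DecidablePred H] (g : Out → ℝ) (mem : Cell → Content)
    (k : ℕ) (s : Strat Cell Content Out) : ℝ :=
  if s.hits H mem ≤ k then g (s.output mem) else 0

end Strat

open Strat

/-- The sequence `B 0 = 1`, `B (k+1) = 1 + Q * B k`. -/
noncomputable def Bk (Q : ℝ) : ℕ → ℝ
  | 0 => 1
  | k + 1 => 1 + Q * Bk Q k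

theorem Bk_le {Q q : ℝ} (hQ : 0 ≤ Q) (hQq : Q ≤ q) (hq : 2 ≤ q) (k : ℕ) :
    0 ≤ Bk Q k ∧ Bk Q k ≤ 2 * q ^ k - 1 := by
  induction k with
  | zero => simp [Bk]; norm_num
  | succ k ih =>
    obtain ⟨h0, h1⟩ := ih
    refine ⟨by simp only [Bk]; positivity, ?_⟩
    simp only [Bk]
    have : Q * Bk Q k ≤ q * (2 * q ^ k - 1) := by
      have hq0 : 0 ≤ q := by linarith
      exact mul_le_mul hQq h1 h0 hq0
    rw [pow_succ]
    nlinarith

/-- Main bias estimate. -/
theorem bias_le {V X Cell Content Out : Type} [Fintype V] [Fintype X] [Fintype Cell]
    [DecidableEq Cell] [Fintype Content] [DecidableEq Content]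
    (K : V → X → ℝ) (L : ℝ)
    (hL : ∀ (α : V → ℝ) (β : X → ℝ), (∀ v, |α v| ≤ 1) → (∀ x, |β x| ≤ 1) →
      |∑ v, ∑ x, α v * β x * K v x| ≤ L)
    (H : Cell → Prop) [DecidablePred H] (κ : Cell → Content) (f : X → Cell → Content)
    (hf : ∀ x c, ¬ H c → f x c = κ c) (g : Out → ℝ) (hg : ∀ o, |g o| ≤ 1) (k : ℕ) :
    ∀ (α : V → ℝ) (β : X → ℝ), (∀ v, |α v| ≤ 1) → (∀ x, |β x| ≤ 1) →
    ∀ s : V → Strat Cell Content Out,
      |∑ v, ∑ x, α v * β x * K v x * (s v).tval H g (f x) k| ≤
        Bk ((Fintype.card Cell : ℝ) * Fintype.card Content) k * L := by
  classical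
  have hL0 : 0 ≤ L := le_trans (abs_nonneg _) (hL 0 0 (by simp) (by simp))
  -- the part coming from the `v` whose head is an answer
  have hans : ∀ (α : V → ℝ) (β : X → ℝ), (∀ v, |α v| ≤ 1) → (∀ x, |β x| ≤ 1) →
      ∀ s : V → Strat Cell Content Out,
      |∑ v, ∑ x, (α v * (match (s v).head H κ with
        | Sum.inl o => g o
        | Sum.inr _ => 0)) * β x * K v x| ≤ L := by
    intro α β hα hβ s
    refine hL _ β (fun v => ?_) hβ
    rw [abs_mul]
    rcases (s v).head H κ with o | o
    · exact mul_le_one₀ (hα v) (abs_nonneg _) (hg o)
    · simp
  induction k with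
  | zero =>
    intro α β hα hβ s
    have : ∀ v x, α v * β x * K v x * (s v).tval H g (f x) 0 =
        (α v * (match (s v).head H κ with
        | Sum.inl o => g o
        | Sum.inr _ => 0)) * β x * K v x := by
      intro v x
      have hs := head_spec (H := H) (κ := κ) (mem := f x) (hf x) (s v)
      rcases hh : (s v).head H κ with o | ⟨c, next⟩
      · obtain ⟨h1, h2⟩ := hs.1 o hh
        simp only [tval, h1, h2, le_refl, if_true]
        ring
      · obtain ⟨h1, h2⟩ := hs.2 c next hh
        have : ¬ ((s v).hits H (f x) ≤ 0) := by omega
        simp only [tval, this, if_false]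
        ring
    simp only [this, Bk, one_mul]
    exact hans α β hα hβ s
  | succ k ih =>
    intro α β hα hβ s
    -- pointwise decomposition
    have hpt : ∀ v x, α v * β x * K v x * (s v).tval H g (f x) (k + 1) =
        (α v * (match (s v).head H κ with
        | Sum.inl o => g o
        | Sum.inr _ => 0)) * β x * K v x +
        ∑ c, ∑ u, (match (s v).head H κ with
            | Sum.inl _ => 0
            | Sum.inr (c', _) => if c' = c then α v else 0) *
          (if f x c = u then β x else 0) * K v x *
          (match (s v).head H κ with
            | Sum.inl _ => s v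
            | Sum.inr (_, next) => next u).tval H g (f x) k := by
      intro v x
      have hs := head_spec (H := H) (κ := κ) (mem := f x) (hf x) (s v)
      rcases hh : (s v).head H κ with o | ⟨c, next⟩
      · obtain ⟨h1, h2⟩ := hs.1 o hh
        simp only [tval, h1, h2, Nat.zero_le, if_true, zero_mul, Finset.sum_const_zero, add_zero]
        ring
      · obtain ⟨h1, h2⟩ := hs.2 c next hh
        simp only
        rw [Finset.sum_eq_single c]
        · rw [Finset.sum_eq_single (f x c)]
          · simp only [if_true, tval, h1, h2, Nat.add_le_add_iff_right]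
            ring
          · intro u _ hu
            have : ¬ (f x c = u) := fun h => hu h.symm
            simp only [this, if_false]
            ring
          · intro h; exact absurd (mem_univ _) h
        · intro c' _ hc'
          have : ¬ (c = c') := fun h => hc' h.symm
          simp only [this, if_false, zero_mul, Finset.sum_const_zero]
        · intro h; exact absurd (mem_univ _) h
    have hsum : ∑ v, ∑ x, α v * β x * K v x * (s v).tval H g (f x) (k + 1) =
        (∑ v, ∑ x, (α v * (match (s v).head H κ with
        | Sum.inl o => g o
        | Sum.inr _ => 0)) * β x * K v x) +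
        ∑ c, ∑ u, ∑ v, ∑ x, (match (s v).head H κ with
            | Sum.inl _ => 0
            | Sum.inr (c', _) => if c' = c then α v else 0) *
          (if f x c = u then β x else 0) * K v x *
          (match (s v).head H κ with
            | Sum.inl _ => s v
            | Sum.inr (_, next) => next u).tval H g (f x) k := by
      simp only [hpt, Finset.sum_add_distrib]
      congr 1
      calc _ = ∑ v, ∑ c, ∑ x, ∑ u, _ := Finset.sum_congr rfl fun v _ => Finset.sum_comm
        _ = ∑ c, ∑ v, ∑ x, ∑ u, _ := Finset.sum_comm
        _ = ∑ c, ∑ v, ∑ u, ∑ x, _ := Finset.sum_congr rfl fun c _ =>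
            Finset.sum_congr rfl fun v _ => Finset.sum_comm
        _ = _ := Finset.sum_congr rfl fun c _ => Finset.sum_comm
    rw [hsum]
    refine (abs_add_le _ _).trans ?_
    have h1 := hans α β hα hβ s
    have h2 : ∀ c u, |∑ v, ∑ x, (match (s v).head H κ with
            | Sum.inl _ => 0
            | Sum.inr (c', _) => if c' = c then α v else 0) *
          (if f x c = u then β x else 0) * K v x *
          (match (s v).head H κ with
            | Sum.inl _ => s v
            | Sum.inr (_, next) => next u).tval H g (f x) k| ≤
        Bk ((Fintype.card Cell : ℝ) * Fintype.card Content) k * L := by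
      intro c u
      refine ih (fun v => match (s v).head H κ with
            | Sum.inl _ => 0
            | Sum.inr (c', _) => if c' = c then α v else 0)
          (fun x => if f x c = u then β x else 0) (fun v => ?_) (fun x => ?_)
          (fun v => match (s v).head H κ with
            | Sum.inl _ => s v
            | Sum.inr (_, next) => next u)
      · rcases (s v).head H κ with o | ⟨c', next⟩
        · simp
        · simp only
          split_ifs
          · exact hα v
          · simp
      · split_ifs
        · exact hβ x
        · simp
    have h3 : |∑ c, ∑ u, ∑ v, ∑ x, (match (s v).head H κ with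
            | Sum.inl _ => 0
            | Sum.inr (c', _) => if c' = c then α v else 0) *
          (if f x c = u then β x else 0) * K v x *
          (match (s v).head H κ with
            | Sum.inl _ => s v
            | Sum.inr (_, next) => next u).tval H g (f x) k| ≤
        (Fintype.card Cell : ℝ) * Fintype.card Content *
          (Bk ((Fintype.card Cell : ℝ) * Fintype.card Content) k * L) := by
      refine (Finset.abs_sum_le_sum_abs _ _).trans ?_
      calc _ ≤ ∑ _c : Cell, (Fintype.card Content : ℝ) *
            (Bk ((Fintype.card Cell : ℝ) * Fintype.card Content) k * L) := by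
            refine Finset.sum_le_sum fun c _ => ?_
            refine (Finset.abs_sum_le_sum_abs _ _).trans ?_
            calc _ ≤ ∑ _u : Content,
                (Bk ((Fintype.card Cell : ℝ) * Fintype.card Content) k * L) :=
                  Finset.sum_le_sum fun u _ => h2 c u
              _ = _ := by
                  rw [Finset.sum_const, Finset.card_univ, nsmul_eq_mul]
        _ = _ := by
            rw [Finset.sum_const, Finset.card_univ, nsmul_eq_mul]
            ring
    simp only [Bk]
    calc _ ≤ L + (Fintype.card Cell : ℝ) * Fintype.card Content *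
          (Bk ((Fintype.card Cell : ℝ) * Fintype.card Content) k * L) := add_le_add h1 h3
      _ = _ := by ring

end Pool.Agent.Work.MP_0f1f76_lc
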