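import Pool.Agent.Work.MP_0f1f76_lc.Tokens
import Pool.Agent.Work.MP_0f1f76_lc.Average

/-!
# Counting matrices with a short description
-/

namespace Pool.Agent.Work.MP_0f1f76_lc

open Finset

/-- Matrices many of whose columns are determined by a small code are few. -/
theorem card_matrices_le {n : ℕ} {T : Type} [Fintype T] [DecidableEq T] (Δ k : ℕ)
    (G : Finset (Mat n)) (code : Mat n → Finset T) (guess : Mat n → Fin n → Vec n)
    (hcode : ∀ M ∈ G, (code M).card ≤ Δ)
    (hguess : ∀ M ∈ G, ∀ M' ∈ G, code M = code M' → guess M = guess M')
    (hk : ∀ M ∈ G, k ≤ (univ.filter fun c => ∀ a, M a c = guess M c a).card) :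
    G.card ≤ (Fintype.card T + 1) ^ Δ * 2 ^ n * 2 ^ (n * (n - k)) := by
  classical
  set K : Mat n → Finset (Fin n) := fun M => univ.filter fun c => ∀ a, M a c = guess M c a with hK
  have hcover : G ⊆ (univ : Finset (Finset (Fin n))).biUnion fun S => G.filter fun M => K M = S := by
    intro M hM
    simp only [Finset.mem_biUnion, Finset.mem_univ, true_and, Finset.mem_filter]
    exact ⟨K M, hM, rfl⟩
  have hpiece : ∀ S : Finset (Fin n), (G.filter fun M => K M = S).card ≤
      (Fintype.card T + 1) ^ Δ * 2 ^ (n * (n - k)) := by
    intro S
    rcases (G.filter fun M => K M = S).eq_empty_or_nonempty with he | ⟨M₀, hM₀⟩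
    · rw [he]; simp
    · have hSk : k ≤ S.card := by
        rw [Finset.mem_filter] at hM₀
        have := hk M₀ hM₀.1
        rw [← hM₀.2]
        exact this
      have hinj : (G.filter fun M => K M = S).card ≤
          ((((univ : Finset (Finset T)).filter fun s => s.card ≤ Δ)) ×ˢ
            (univ : Finset (Fin n → {c // c ∉ S} → ZMod 2))).card := by
        refine Finset.card_le_card_of_injOn
          (fun M => (code M, fun a (c : {c // c ∉ S}) => M a c)) ?_ ?_
        · intro M hM
          rw [Finset.mem_coe, Finset.mem_filter] at hM
          simp only [Finset.coe_product, Set.mem_prod, Finset.mem_coe, Finset.mem_filter,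
            Finset.mem_univ, true_and, and_true]
          exact hcode M hM.1
        · intro M hM M' hM' heq
          rw [Finset.mem_coe, Finset.mem_filter] at hM hM'
          simp only [Prod.mk.injEq] at heq
          have hg := hguess M hM.1 M' hM'.1 heq.1
          ext a c
          by_cases hc : c ∈ S
          · have h1 : c ∈ K M := by rw [hM.2]; exact hc
            have h2 : c ∈ K M' := by rw [hM'.2]; exact hc
            simp only [hK, Finset.mem_filter, Finset.mem_univ, true_and] at h1 h2
            rw [h1 a, h2 a, hg]
          · have := congrFun (congrFun heq.2 a) ⟨c, hc⟩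
            exact this
      refine hinj.trans ?_
      rw [Finset.card_product]
      refine Nat.mul_le_mul (card_small_finsets T Δ) ?_
      rw [Finset.card_univ, Fintype.card_fun, Fintype.card_fun, ZMod.card, Fintype.card_fin,
        ← pow_mul]
      refine Nat.pow_le_pow_right (by norm_num) ?_
      rw [mul_comm]
      refine Nat.mul_le_mul_left _ ?_
      rw [Fintype.card_subtype_compl (fun c => c ∈ S), Fintype.card_fin, Fintype.card_coe]
      omega
  refine (Finset.card_le_card hcover).trans (Finset.card_biUnion_le.trans ?_)
  refine (Finset.sum_le_sum fun S _ => hpiece S).trans (le_of_eq ?_)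
  rw [Finset.sum_const, Finset.card_univ, Fintype.card_finset, Fintype.card_fin, smul_eq_mul]
  ring

theorem card_tok (W ι : Type) [Fintype W] [Fintype ι] (Δ : ℕ) :
    Fintype.card (Tok W ι Δ) =
      Δ * Fintype.card W + Fintype.card ι * (Δ * (Fintype.card W + 1)) := by
  simp [Tok]

variable {n S w : ℕ}

/-- The output is determined by the contents read. -/
theorem Strat.output_eq_of_reads {Cell Content Out : Type} {mem mem' : Cell → Content}
    (s : Strat Cell Content Out) (h : s.reads mem = s.reads mem') :
    s.output mem = s.output mem' := by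
  induction s with
  | answer o => rfl
  | probe c next ih =>
    simp only [Strat.reads, List.cons.injEq] at h
    obtain ⟨h1, h2⟩ := h
    simp only [Strat.output]
    rw [← h1] at h2 ⊢
    exact ih _ h2

theorem Strat.reads_length {Cell Content Out : Type} {mem : Cell → Content}
    (s : Strat Cell Content Out) : (s.reads mem).length = (s.probed mem).length := by
  induction s with
  | answer o => rfl
  | probe c next ih => simp [Strat.reads, Strat.probed, ih]

/-- The list of the contents read in round `i`. -/
def rlist (A : OnlineAlg n S w) (i : Fin n) (M : Mat n) (vs : Fin n → Vec n) : List (Word w) :=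
  (A.query i vs).reads (A.mem i vs M)

/-- The cost of round `i`: number of probes plus sensitivity. -/
noncomputable def kap (A : OnlineAlg n S w) (i : Fin n) (M : Mat n) (vs : Fin n → Vec n) : ℕ :=
  (rlist A i M vs).length + ∑ c, (diffPos (rlist A i M vs) (rlist A i M (flipBit vs i c))).ncard

theorem probes_add_sensCost (A : OnlineAlg n S w) (M : Mat n) (vs : Fin n → Vec n) :
    A.probes M vs + A.sensCost M vs = ∑ i, kap A i M vs := by
  unfold OnlineAlg.probes OnlineAlg.sensCost kap
  rw [← Finset.sum_add_distrib]
  refine Finset.sum_congr rfl fun i _ => ?_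
  rw [rlist, Strat.reads_length]
  rfl

/-- The `i`-th output. -/
def outp (A : OnlineAlg n S w) (i : Fin n) (M : Mat n) (vs : Fin n → Vec n) : Vec n :=
  (A.query i vs).output (A.mem i vs M)

theorem outp_eq (A : OnlineAlg n S w) (i : Fin n) (M M' : Mat n) (vs : Fin n → Vec n)
    (h : rlist A i M vs = rlist A i M' vs) : outp A i M vs = outp A i M' vs :=
  Strat.output_eq_of_reads _ h

open scoped Classical in
/-- The bits `c` for which the `i`-th outputs are right both on `vs` and after flipping `c`. -/
noncomputable def goodBits (A : OnlineAlg n S w) (i : Fin n) (M : Mat n) (vs : Fin n → Vec n) :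
    Finset (Fin n) :=
  univ.filter fun c => outp A i M vs = M.mulVec (vs i) ∧
    outp A i M (flipBit vs i c) = M.mulVec (flipBit vs i c i)

theorem goodBits_col {A : OnlineAlg n S w} {i : Fin n} {M : Mat n} {vs : Fin n → Vec n}
    {c : Fin n} (hc : c ∈ goodBits A i M vs) (a : Fin n) :
    M a c = outp A i M (flipBit vs i c) a - outp A i M vs a := by
  classical
  simp only [goodBits, Finset.mem_filter, Finset.mem_univ, true_and] at hc
  rw [hc.1, hc.2]
  simp [flipBit, Matrix.mulVec_add]

/-- For fixed vectors, few matrices have small cost and many good bits. -/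
theorem card_bad_le (A : OnlineAlg n S w) (i : Fin n) (vs : Fin n → Vec n) (Δ k : ℕ) :
    (open Classical in
      (univ.filter fun M : Mat n => kap A i M vs ≤ Δ ∧ k ≤ (goodBits A i M vs).card).card) ≤
      (Δ * 2 ^ w + n * (Δ * (2 ^ w + 1)) + 1) ^ Δ * 2 ^ n * 2 ^ (n * (n - k)) := by
  classical
  have h := card_matrices_le (n := n) (T := Tok (Word w) (Fin n) Δ) Δ k
    (univ.filter fun M : Mat n => kap A i M vs ≤ Δ ∧ k ≤ (goodBits A i M vs).card)
    (fun M => tokens Δ (rlist A i M vs) (fun c => rlist A i M (flipBit vs i c)))
    (fun M c => outp A i M (flipBit vs i c) - outp A i M vs)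
    (fun M hM => by
      simp only [Finset.mem_filter, Finset.mem_univ, true_and] at hM
      exact (card_tokens_le Δ _ _).trans hM.1)
    (fun M hM M' hM' heq => by
      simp only [Finset.mem_filter, Finset.mem_univ, true_and] at hM hM'
      obtain ⟨h1, h2⟩ := tokens_injective Δ _ _ _ _ hM.1 hM'.1 heq
      funext c
      rw [outp_eq A i M M' vs h1, outp_eq A i M M' (flipBit vs i c) (congrFun h2 c)])
    (fun M hM => by
      simp only [Finset.mem_filter, Finset.mem_univ, true_and] at hM
      refine hM.2.trans (Finset.card_le_card fun c hc => ?_)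
      simp only [Finset.mem_filter, Finset.mem_univ, true_and]
      intro a
      exact goodBits_col hc a)
  rw [card_tok] at h
  simpa using h

end Pool.Agent.Work.MP_0f1f76_lc
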