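import Mathlib

/-!
# Online matrix-vector multiplication over `𝔽₂`: the cell-probe model

Definitions used by the hand-in `RowLocalLowerBound`.
-/

namespace Pool.Agent.Work.MP_0f1f76_lc

/-- Vectors of length `n` over `𝔽₂`. -/
abbrev Vec (n : ℕ) := Fin n → ZMod 2

/-- `n × n` matrices over `𝔽₂`. -/
abbrev Mat (n : ℕ) := Matrix (Fin n) (Fin n) (ZMod 2)

/-- Machine words of `w` bits. -/
abbrev Word (w : ℕ) := Fin w → Bool

/-- An adaptive cell-probe strategy: either give the output, or probe a cell and continue in a way
that depends on the content found there.  (Computation between probes is free.) -/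
inductive Strat (Cell Content Out : Type) : Type
  | answer (o : Out) : Strat Cell Content Out
  | probe (c : Cell) (next : Content → Strat Cell Content Out) : Strat Cell Content Out

namespace Strat

variable {Cell Content Out : Type}

/-- The output of a strategy when the memory contents are `mem`. -/
def output (mem : Cell → Content) : Strat Cell Content Out → Out
  | answer o => o
  | probe c next => (next (mem c)).output mem

/-- The list of the cells probed when the memory contents are `mem`. -/
def probed (mem : Cell → Content) : Strat Cell Content Out → List Cell
  | answer _ => []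
  | probe c next => c :: (next (mem c)).probed mem

end Strat

/-- A deterministic online algorithm for `n` rounds of `n × n` matrix-vector multiplication over
`𝔽₂`, with `S` memory cells of `w` bits each.

* `mem i vs M c` is the content of cell `c` at the moment the vector `vs i` arrives.  It is an
  arbitrary function of the matrix and of the earlier vectors, so preprocessing, and updates of
  the memory between the rounds, cost nothing.
* `query i vs` is the strategy by which the algorithm then produces its `i`-th output.  It may
  depend arbitrarily on `vs 0, …, vs i`; it learns about the matrix only by probing cells. -/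
structure OnlineAlg (n S w : ℕ) where
  mem : Fin n → (Fin n → Vec n) → Mat n → Fin S → Word w
  query : Fin n → (Fin n → Vec n) → Strat (Fin S) (Word w) (Vec n)
  mem_past : ∀ (i : Fin n) (vs vs' : Fin n → Vec n),
    (∀ j, j < i → vs j = vs' j) → mem i vs = mem i vs'
  query_past : ∀ (i : Fin n) (vs vs' : Fin n → Vec n),
    (∀ j, j ≤ i → vs j = vs' j) → query i vs = query i vs'

/-- The set of rows of the matrix on which the value `f M` depends. -/
noncomputable def rowDeps {n : ℕ} {α : Type} (f : Mat n → α) : Finset (Fin n) :=
  open Classical in
  Finset.univ.filter fun a => ∃ (M : Mat n) (x : Vec n), f (M.updateRow a x) ≠ f M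

namespace OnlineAlg

variable {n S w : ℕ}

/-- The algorithm answers all `n` queries correctly on the input `M`, `vs`. -/
def Correct (A : OnlineAlg n S w) (M : Mat n) (vs : Fin n → Vec n) : Prop :=
  ∀ i, (A.query i vs).output (A.mem i vs M) = M.mulVec (vs i)

/-- The total number of cell probes in all `n` rounds on the input `M`, `vs`. -/
def probes (A : OnlineAlg n S w) (M : Mat n) (vs : Fin n → Vec n) : ℕ :=
  ∑ i, ((A.query i vs).probed (A.mem i vs M)).length

/-- The total row cost on the input `M`, `vs`: every cell probe is charged the number of rows of
the matrix on which the current content of the probed cell depends. -/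
noncomputable def rowCost (A : OnlineAlg n S w) (M : Mat n) (vs : Fin n → Vec n) : ℕ :=
  ∑ i, (((A.query i vs).probed (A.mem i vs M)).map
    fun c => (rowDeps fun M' => A.mem i vs M' c).card).sum

/-- The algorithm is `r`-row-local: at every moment at which a vector arrives, the content of
every memory cell depends on at most `r` rows of the matrix. -/
def RowLocal (A : OnlineAlg n S w) (r : ℕ) : Prop :=
  ∀ i vs c, (rowDeps fun M => A.mem i vs M c).card ≤ r

end OnlineAlg

/-- The average of `f M vs` over all inputs, that is, its expectation when the matrix and the `n`
vectors are independent and uniformly random. -/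
noncomputable def avgInput {n : ℕ} (f : Mat n → (Fin n → Vec n) → ℝ) : ℝ :=
  (∑ M : Mat n, ∑ vs : Fin n → Vec n, f M vs) /
    (Fintype.card (Mat n) * Fintype.card (Fin n → Vec n))

/-- A randomized online algorithm: a probability distribution, with finitely many seeds, on
deterministic online algorithms. -/
structure RandAlg (n S w : ℕ) where
  Seed : Type
  [fintypeSeed : Fintype Seed]
  prob : Seed → ℝ
  prob_nonneg : ∀ ω, 0 ≤ prob ω
  prob_sum : ∑ ω, prob ω = 1
  alg : Seed → OnlineAlg n S w

attribute [instance] RandAlg.fintypeSeed

namespace RandAlg

variable {n S w : ℕ}

/-- The probability that at least one of the `n` outputs is wrong on the input `M`, `vs`. -/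
noncomputable def errProb (R : RandAlg n S w) (M : Mat n) (vs : Fin n → Vec n) : ℝ :=
  open Classical in
  ∑ ω, if (R.alg ω).Correct M vs then 0 else R.prob ω

/-- The expected total number of cell probes on the input `M`, `vs`. -/
noncomputable def expProbes (R : RandAlg n S w) (M : Mat n) (vs : Fin n → Vec n) : ℝ :=
  ∑ ω, R.prob ω * ((R.alg ω).probes M vs : ℝ)

/-- The expected total row cost on the input `M`, `vs`. -/
noncomputable def expRowCost (R : RandAlg n S w) (M : Mat n) (vs : Fin n → Vec n) : ℝ :=
  ∑ ω, R.prob ω * ((R.alg ω).rowCost M vs : ℝ)

/-- Every deterministic algorithm in the support family is `r`-row-local. -/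
def RowLocal (R : RandAlg n S w) (r : ℕ) : Prop := ∀ ω, (R.alg ω).RowLocal r

end RandAlg

end Pool.Agent.Work.MP_0f1f76_lc
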