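import Pool.Agent.Work.MP_0f1f76_lc.Average

/-!
# The row-cost lower bound
-/

namespace Pool.Agent.Work.MP_0f1f76_lc

open Finset

variable {n S w : ℕ}

/-- One deterministic algorithm, one round, one row. -/
theorem round_bound (A : OnlineAlg n S w) (i a : Fin n) (k : ℕ)
    (hk : 12 * (Bk ((S : ℝ) * 2 ^ w) k * Real.sqrt (2 ^ (3 * n))) ≤ 2 ^ (2 * n)) :
    ∑ _M : Mat n, ∑ _vs : Fin n → Vec n, ((k : ℝ) + 1) * (11 / 12) ≤
      (∑ M : Mat n, ∑ vs : Fin n → Vec n, (rhits A i a M vs : ℝ)) +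
      2 * ((k : ℝ) + 1) * ∑ M : Mat n, ∑ vs : Fin n → Vec n,
        (open Classical in if A.Correct M vs then (0 : ℝ) else 1) := by
  classical
  set F : Mat n → (Fin n → Vec n) → ℝ := fun M vs => if rhits A i a M vs ≤ k
        then chi ((A.query i vs).output (A.mem i vs M) a) * chi (M.mulVec (vs i) a) else 0 with hF
  have hdet := det_bound A i a k
  have h2pos : (0 : ℝ) < 2 ^ (2 * n) := by positivity
  -- sum of F is small
  have hFsum : 12 * ∑ M : Mat n, ∑ vs : Fin n → Vec n, F M vs ≤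
      ∑ _M : Mat n, ∑ _vs : Fin n → Vec n, (1 : ℝ) := by
    have e1 : ∑ M : Mat n, ∑ vs : Fin n → Vec n, F M vs * (2 : ℝ) ^ (2 * n) =
        (∑ M : Mat n, ∑ vs : Fin n → Vec n, F M vs) * (2 : ℝ) ^ (2 * n) := by
      rw [Finset.sum_mul]
      exact Finset.sum_congr rfl fun M _ => by rw [Finset.sum_mul]
    have e2 : ∑ _M : Mat n, ∑ _vs : Fin n → Vec n,
        Bk ((S : ℝ) * 2 ^ w) k * Real.sqrt (2 ^ (3 * n)) =
        (∑ _M : Mat n, ∑ _vs : Fin n → Vec n, (1 : ℝ)) *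
          (Bk ((S : ℝ) * 2 ^ w) k * Real.sqrt (2 ^ (3 * n))) := by
      simp only [Finset.sum_const, nsmul_eq_mul, mul_one]
      ring
    have hN : (0 : ℝ) ≤ ∑ _M : Mat n, ∑ _vs : Fin n → Vec n, (1 : ℝ) :=
      Finset.sum_nonneg fun _ _ => Finset.sum_nonneg fun _ _ => zero_le_one
    have h3 : (12 * ∑ M : Mat n, ∑ vs : Fin n → Vec n, F M vs) * (2 : ℝ) ^ (2 * n) ≤
        (∑ _M : Mat n, ∑ _vs : Fin n → Vec n, (1 : ℝ)) * 2 ^ (2 * n) := by
      calc (12 * ∑ M : Mat n, ∑ vs : Fin n → Vec n, F M vs) * (2 : ℝ) ^ (2 * n)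
          = 12 * ∑ M : Mat n, ∑ vs : Fin n → Vec n, F M vs * (2 : ℝ) ^ (2 * n) := by
            rw [e1]; ring
        _ ≤ 12 * ∑ _M : Mat n, ∑ _vs : Fin n → Vec n,
              Bk ((S : ℝ) * 2 ^ w) k * Real.sqrt (2 ^ (3 * n)) := by
            have := hdet
            simp only [hF]
            linarith
        _ = (∑ _M : Mat n, ∑ _vs : Fin n → Vec n, (1 : ℝ)) *
            (12 * (Bk ((S : ℝ) * 2 ^ w) k * Real.sqrt (2 ^ (3 * n)))) := by rw [e2]; ring
        _ ≤ _ := mul_le_mul_of_nonneg_left hk hN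
    exact le_of_mul_le_mul_right h3 h2pos
  -- pointwise inequality
  have hpt : ∀ M vs, ((k : ℝ) + 1) * 1 ≤ (rhits A i a M vs : ℝ) +
      2 * ((k : ℝ) + 1) * (if A.Correct M vs then (0 : ℝ) else 1) +
      ((k : ℝ) + 1) * F M vs := by
    intro M vs
    have hk0 : (0 : ℝ) ≤ (k : ℝ) + 1 := by positivity
    have hr0 : (0 : ℝ) ≤ (rhits A i a M vs : ℝ) := by positivity
    by_cases hle : rhits A i a M vs ≤ k
    · by_cases hc : A.Correct M vs
      · have hbit : (A.query i vs).output (A.mem i vs M) a = M.mulVec (vs i) a := by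
          rw [hc i]
        have : F M vs = 1 := by
          simp only [hF, hle, if_true, hbit, chi_mul_self]
        rw [this, if_pos hc]
        linarith
      · have : -1 ≤ F M vs := by
          simp only [hF, hle, if_true, chi_mul_chi]
          split_ifs <;> norm_num
        rw [if_neg hc]
        nlinarith
    · have h0 : F M vs = 0 := by simp only [hF, hle, if_false]
      have h1 : (k : ℝ) + 1 ≤ (rhits A i a M vs : ℝ) := by
        have : k + 1 ≤ rhits A i a M vs := by omega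
        exact_mod_cast this
      have h2 : (0 : ℝ) ≤ (if A.Correct M vs then (0 : ℝ) else 1) := by split_ifs <;> norm_num
      rw [h0]
      nlinarith [mul_nonneg hk0 h2]
  have hsum : ∑ M : Mat n, ∑ vs : Fin n → Vec n, ((k : ℝ) + 1) * 1 ≤
      ∑ M : Mat n, ∑ vs : Fin n → Vec n, ((rhits A i a M vs : ℝ) +
      2 * ((k : ℝ) + 1) * (if A.Correct M vs then (0 : ℝ) else 1) +
      ((k : ℝ) + 1) * F M vs) :=
    Finset.sum_le_sum fun M _ => Finset.sum_le_sum fun vs _ => hpt M vs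
  simp only [Finset.sum_add_distrib, ← Finset.mul_sum] at hsum ⊢
  have hk0 : (0 : ℝ) ≤ (k : ℝ) + 1 := by positivity
  have h4 := mul_le_mul_of_nonneg_left hFsum hk0
  simp only [Finset.sum_const, nsmul_eq_mul, mul_one] at hsum h4 ⊢
  nlinarith

/-- Randomized algorithms: the averaged bound. -/
theorem rand_bound (R : RandAlg n S w) (herr : avgInput R.errProb ≤ 1 / 3) (k : ℕ)
    (hk : 12 * (Bk ((S : ℝ) * 2 ^ w) k * Real.sqrt (2 ^ (3 * n))) ≤ 2 ^ (2 * n)) :
    (n : ℝ) ^ 2 * (((k : ℝ) + 1) / 4) ≤ avgInput R.expRowCost := by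
  classical
  have hNpos : (0 : ℝ) < (Fintype.card (Mat n) : ℝ) * Fintype.card (Fin n → Vec n) := by
    have h1 : (0 : ℝ) < Fintype.card (Mat n) := by exact_mod_cast Fintype.card_pos
    have h2 : (0 : ℝ) < Fintype.card (Fin n → Vec n) := by exact_mod_cast Fintype.card_pos
    exact mul_pos h1 h2
  have herr' : ∑ M : Mat n, ∑ vs : Fin n → Vec n, R.errProb M vs ≤
      ∑ _M : Mat n, ∑ _vs : Fin n → Vec n, (1 / 3 : ℝ) := by
    have := herr
    unfold avgInput at this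
    rw [div_le_iff₀ hNpos] at this
    simp only [Finset.sum_const, nsmul_eq_mul, Finset.card_univ]
    linarith
  -- for each round and each row
  have h1 : ∀ i a : Fin n, ∑ _M : Mat n, ∑ _vs : Fin n → Vec n, (((k : ℝ) + 1) / 4) ≤
      ∑ M : Mat n, ∑ vs : Fin n → Vec n, ∑ ω, R.prob ω * (rhits (R.alg ω) i a M vs : ℝ) := by
    intro i a
    have hω : ∀ ω, R.prob ω * ∑ _M : Mat n, ∑ _vs : Fin n → Vec n, ((k : ℝ) + 1) * (11 / 12) ≤
        R.prob ω * ((∑ M : Mat n, ∑ vs : Fin n → Vec n, (rhits (R.alg ω) i a M vs : ℝ)) +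
      2 * ((k : ℝ) + 1) * ∑ M : Mat n, ∑ vs : Fin n → Vec n,
        (if (R.alg ω).Correct M vs then (0 : ℝ) else 1)) := fun ω =>
      mul_le_mul_of_nonneg_left (round_bound (R.alg ω) i a k hk) (R.prob_nonneg ω)
    have hs := Finset.sum_le_sum fun ω (_ : ω ∈ (univ : Finset R.Seed)) => hω ω
    rw [← Finset.sum_mul, R.prob_sum, one_mul] at hs
    have e1 : ∑ ω, R.prob ω * ((∑ M : Mat n, ∑ vs : Fin n → Vec n,
          (rhits (R.alg ω) i a M vs : ℝ)) +
        2 * ((k : ℝ) + 1) * ∑ M : Mat n, ∑ vs : Fin n → Vec n,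
        (if (R.alg ω).Correct M vs then (0 : ℝ) else 1)) =
        (∑ M : Mat n, ∑ vs : Fin n → Vec n, ∑ ω, R.prob ω * (rhits (R.alg ω) i a M vs : ℝ)) +
        2 * ((k : ℝ) + 1) * ∑ M : Mat n, ∑ vs : Fin n → Vec n, R.errProb M vs := by
      simp only [mul_add, Finset.sum_add_distrib]
      congr 1
      · simp only [Finset.mul_sum]
        rw [Finset.sum_comm]
        exact Finset.sum_congr rfl fun M _ => Finset.sum_comm
      · simp only [RandAlg.errProb, Finset.mul_sum]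
        rw [Finset.sum_comm]
        refine Finset.sum_congr rfl fun M _ => ?_
        rw [Finset.sum_comm]
        refine Finset.sum_congr rfl fun vs _ => Finset.sum_congr rfl fun ω _ => ?_
        split_ifs <;> ring
    rw [e1] at hs
    have h2 := herr'
    have hk0 : (0 : ℝ) ≤ 2 * ((k : ℝ) + 1) := by positivity
    have h3 := mul_le_mul_of_nonneg_left h2 hk0
    simp only [Finset.sum_const, nsmul_eq_mul] at hs h3 ⊢
    nlinarith
  -- sum over rounds and rows
  have h2 : ∑ _M : Mat n, ∑ _vs : Fin n → Vec n, ((n : ℝ) ^ 2 * (((k : ℝ) + 1) / 4)) ≤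
      ∑ M : Mat n, ∑ vs : Fin n → Vec n, R.expRowCost M vs := by
    have hs := Finset.sum_le_sum fun i (_ : i ∈ (univ : Finset (Fin n))) =>
      Finset.sum_le_sum fun a (_ : a ∈ (univ : Finset (Fin n))) => h1 i a
    have e1 : ∑ i : Fin n, ∑ a : Fin n, ∑ M : Mat n, ∑ vs : Fin n → Vec n, ∑ ω,
        R.prob ω * (rhits (R.alg ω) i a M vs : ℝ) =
        ∑ M : Mat n, ∑ vs : Fin n → Vec n, R.expRowCost M vs := by
      calc _ = ∑ i : Fin n, ∑ M : Mat n, ∑ a : Fin n, ∑ vs : Fin n → Vec n, ∑ ω,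
            R.prob ω * (rhits (R.alg ω) i a M vs : ℝ) :=
            Finset.sum_congr rfl fun i _ => Finset.sum_comm
        _ = ∑ M : Mat n, ∑ i : Fin n, ∑ a : Fin n, ∑ vs : Fin n → Vec n, ∑ ω,
            R.prob ω * (rhits (R.alg ω) i a M vs : ℝ) := Finset.sum_comm
        _ = ∑ M : Mat n, ∑ i : Fin n, ∑ vs : Fin n → Vec n, ∑ a : Fin n, ∑ ω,
            R.prob ω * (rhits (R.alg ω) i a M vs : ℝ) :=
            Finset.sum_congr rfl fun M _ => Finset.sum_congr rfl fun i _ => Finset.sum_comm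
        _ = ∑ M : Mat n, ∑ vs : Fin n → Vec n, ∑ i : Fin n, ∑ a : Fin n, ∑ ω,
            R.prob ω * (rhits (R.alg ω) i a M vs : ℝ) :=
            Finset.sum_congr rfl fun M _ => Finset.sum_comm
        _ = _ := by
            refine Finset.sum_congr rfl fun M _ => Finset.sum_congr rfl fun vs _ => ?_
            unfold RandAlg.expRowCost
            have : ∀ ω, R.prob ω * ((R.alg ω).rowCost M vs : ℝ) =
                ∑ i : Fin n, ∑ a : Fin n, R.prob ω * (rhits (R.alg ω) i a M vs : ℝ) := by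
              intro ω
              rw [rowCost_eq]
              push_cast
              simp only [Finset.mul_sum]
            simp only [this]
            calc _ = ∑ i : Fin n, ∑ ω, ∑ a : Fin n,
                  R.prob ω * (rhits (R.alg ω) i a M vs : ℝ) :=
                  Finset.sum_congr rfl fun i _ => Finset.sum_comm
              _ = _ := Finset.sum_comm
    rw [e1] at hs
    refine le_of_eq_of_le ?_ hs
    simp only [Finset.sum_const, nsmul_eq_mul, Finset.card_univ, Fintype.card_fin]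
    ring
  unfold avgInput
  rw [le_div_iff₀ hNpos]
  simp only [Finset.sum_const, nsmul_eq_mul, Finset.card_univ] at h2
  linarith

/-- The main lower bound. -/
theorem main_bound {ℓ : ℕ} (hn : 20 ≤ n) (hw : 1 ≤ w) (hS : S ≤ 2 ^ ℓ) (R : RandAlg n S w)
    (herr : avgInput R.errProb ≤ 1 / 3) :
    (n : ℝ) ^ 3 ≤ 16 * ((w : ℝ) + ℓ) * avgInput R.expRowCost := by
  set b := w + ℓ with hb
  have hb1 : 1 ≤ b := by omega
  set k := (n - 10) / (2 * b) with hkdef
  have hk1 : 2 * b * k ≤ n - 10 := Nat.mul_div_le _ _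
  have hk2 : n - 10 < 2 * b * (k + 1) := by
    have := Nat.lt_mul_div_succ (n - 10) (show 0 < 2 * b by omega)
    simpa [hkdef, Nat.mul_comm] using this
  have hQ : (S : ℝ) * 2 ^ w ≤ 2 ^ b := by
    have : (S : ℝ) ≤ 2 ^ ℓ := by exact_mod_cast hS
    calc (S : ℝ) * 2 ^ w ≤ 2 ^ ℓ * 2 ^ w := by gcongr
      _ = 2 ^ b := by rw [hb, pow_add]; ring
  have h2b : (2 : ℝ) ≤ 2 ^ b := by
    calc (2 : ℝ) = 2 ^ 1 := by norm_num
      _ ≤ 2 ^ b := pow_le_pow_right₀ (by norm_num) hb1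
  have hB := (Bk_le (by positivity) hQ h2b k).2
  have hsqrt : Real.sqrt (2 ^ (3 * n)) = 2 ^ n * Real.sqrt (2 ^ n) := by
    have : (2 : ℝ) ^ (3 * n) = (2 ^ n) ^ 2 * 2 ^ n := by ring
    rw [this, Real.sqrt_mul (by positivity), Real.sqrt_sq (by positivity)]
  have hlow : 32 * ((2 : ℝ) ^ b) ^ k ≤ Real.sqrt (2 ^ n) := by
    apply Real.le_sqrt_of_sq_le
    have : (32 * ((2 : ℝ) ^ b) ^ k) ^ 2 = 2 ^ (10 + 2 * b * k) := by
      rw [mul_pow, ← pow_mul, ← pow_mul, pow_add]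
      norm_num
      ring
    rw [this]
    exact pow_le_pow_right₀ (by norm_num) (by omega)
  have hk : 12 * (Bk ((S : ℝ) * 2 ^ w) k * Real.sqrt (2 ^ (3 * n))) ≤ 2 ^ (2 * n) := by
    rw [hsqrt]
    have hs0 : 0 ≤ Real.sqrt (2 ^ n) := Real.sqrt_nonneg _
    have hss : Real.sqrt (2 ^ n) * Real.sqrt (2 ^ n) = 2 ^ n :=
      Real.mul_self_sqrt (by positivity)
    have h1 : Bk ((S : ℝ) * 2 ^ w) k ≤ 2 * (2 ^ b) ^ k := by linarith
    have h2 : 12 * Bk ((S : ℝ) * 2 ^ w) k ≤ Real.sqrt (2 ^ n) := by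
      have : (0 : ℝ) ≤ (2 ^ b) ^ k := by positivity
      linarith
    calc 12 * (Bk ((S : ℝ) * 2 ^ w) k * (2 ^ n * Real.sqrt (2 ^ n)))
        = (12 * Bk ((S : ℝ) * 2 ^ w) k) * (2 ^ n * Real.sqrt (2 ^ n)) := by ring
      _ ≤ Real.sqrt (2 ^ n) * (2 ^ n * Real.sqrt (2 ^ n)) := by gcongr
      _ = 2 ^ n * (Real.sqrt (2 ^ n) * Real.sqrt (2 ^ n)) := by ring
      _ = 2 ^ (2 * n) := by rw [hss]; ring
  have h := rand_bound R herr k hk
  have hbk : (n : ℝ) ≤ 4 * b * (k + 1) := by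
    have : n ≤ 4 * b * (k + 1) := by
      have h5 : 4 * b * (k + 1) = 2 * (2 * b * (k + 1)) := by ring
      omega
    exact_mod_cast this
  have hn2 : (0 : ℝ) ≤ (n : ℝ) ^ 2 := by positivity
  have hbR : ((w : ℝ) + ℓ) = b := by rw [hb]; push_cast; ring
  rw [hbR]
  have hb0 : (0 : ℝ) ≤ 16 * (b : ℝ) := by positivity
  calc (n : ℝ) ^ 3 = (n : ℝ) ^ 2 * (n : ℝ) := by ring
    _ ≤ (n : ℝ) ^ 2 * (4 * (b : ℝ) * ((k : ℝ) + 1)) := by gcongr
    _ = 16 * b * ((n : ℝ) ^ 2 * (((k : ℝ) + 1) / 4)) := by ring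
    _ ≤ 16 * b * avgInput R.expRowCost := mul_le_mul_of_nonneg_left h hb0

theorem expRowCost_le (R : RandAlg n S w) {r : ℕ} (hR : R.RowLocal r) (M : Mat n)
    (vs : Fin n → Vec n) : R.expRowCost M vs ≤ r * R.expProbes M vs := by
  unfold RandAlg.expRowCost RandAlg.expProbes
  rw [Finset.mul_sum]
  refine Finset.sum_le_sum fun ω _ => ?_
  have h1 : ((R.alg ω).rowCost M vs : ℝ) ≤ r * (R.alg ω).probes M vs := by
    exact_mod_cast rowCost_le (R.alg ω) (hR ω) M vs
  calc R.prob ω * ((R.alg ω).rowCost M vs : ℝ)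
      ≤ R.prob ω * (r * (R.alg ω).probes M vs) :=
        mul_le_mul_of_nonneg_left h1 (R.prob_nonneg ω)
    _ = _ := by ring

theorem avgInput_expRowCost_le (R : RandAlg n S w) {r : ℕ} (hR : R.RowLocal r) :
    avgInput R.expRowCost ≤ r * avgInput R.expProbes := by
  have h1 : ∑ M : Mat n, ∑ vs : Fin n → Vec n, R.expRowCost M vs ≤
      r * ∑ M : Mat n, ∑ vs : Fin n → Vec n, R.expProbes M vs := by
    rw [Finset.mul_sum]
    refine Finset.sum_le_sum fun M _ => ?_
    rw [Finset.mul_sum]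
    exact Finset.sum_le_sum fun vs _ => expRowCost_le R hR M vs
  unfold avgInput
  rw [← mul_div_assoc]
  gcongr

end Pool.Agent.Work.MP_0f1f76_lc
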