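import Pool.Agent.Work.MP_0f1f76_lc.Counting
import Pool.Agent.Work.MP_0f1f76_lc.Main

/-!
# The sensitivity lower bound
-/

namespace Pool.Agent.Work.MP_0f1f76_lc

open Finset

variable {n S w : ℕ}

theorem flipBit_self (vs : Fin n → Vec n) (i c : Fin n) :
    flipBit (flipBit vs i c) i c = vs := by
  unfold flipBit
  rw [Function.update_self, Function.update_idem, add_assoc, ← Pi.single_add]
  have : (1 : ZMod 2) + 1 = 0 := by decide
  rw [this, Pi.single_zero, add_zero, Function.update_eq_self]

theorem sum_flipBit {R : Type} [AddCommMonoid R] (i c : Fin n) (F : (Fin n → Vec n) → R) :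
    ∑ vs : Fin n → Vec n, F (flipBit vs i c) = ∑ vs, F vs :=
  Fintype.sum_bijective (fun vs => flipBit vs i c)
    (Function.Involutive.bijective fun vs => flipBit_self vs i c) _ _ fun _ => rfl

theorem update_flipBit (vs : Fin n → Vec n) (i c : Fin n) (x : Vec n) :
    Function.update (flipBit vs i c) i x = Function.update vs i x := by
  unfold flipBit
  rw [Function.update_idem]

/-- For `b`-input-local algorithms the total sensitivity is at most `2 b` times the number of
probes. -/
theorem sum_sens_le (A : OnlineAlg n S w) {b : ℕ} (hA : A.InputLocal b) (i : Fin n) (M : Mat n) :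
    ∑ vs : Fin n → Vec n, ∑ c, (diffPos (rlist A i M vs) (rlist A i M (flipBit vs i c))).ncard ≤
      2 * b * ∑ vs : Fin n → Vec n, (rlist A i M vs).length := by
  classical
  set a : Fin n → (Fin n → Vec n) → ℕ := fun c vs =>
    ((Finset.range (rlist A i M vs).length).filter fun j => c ∈ A.readDeps i M vs j).card with ha
  have hdeps : ∀ vs c j, A.readDeps i M (flipBit vs i c) j = A.readDeps i M vs j := by
    intro vs c j
    unfold OnlineAlg.readDeps
    simp only [update_flipBit]
  have h1 : ∀ vs c, (diffPos (rlist A i M vs) (rlist A i M (flipBit vs i c))).ncard ≤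
      a c vs + a c (flipBit vs i c) := by
    intro vs c
    have hsub : diffPos (rlist A i M vs) (rlist A i M (flipBit vs i c)) ⊆
        ((((Finset.range (rlist A i M vs).length).filter fun j => c ∈ A.readDeps i M vs j) ∪
          ((Finset.range (rlist A i M (flipBit vs i c)).length).filter
            fun j => c ∈ A.readDeps i M (flipBit vs i c) j) : Finset ℕ) : Set ℕ) := by
      intro j hj
      have hc : c ∈ A.readDeps i M vs j := by
        unfold OnlineAlg.readDeps
        simp only [Finset.mem_filter, Finset.mem_univ, true_and]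
        refine ⟨vs i, ?_⟩
        rw [Function.update_eq_self]
        exact hj
      have hlt := diffPos_subset _ _ hj
      rw [Set.mem_Iio, lt_max_iff] at hlt
      simp only [Finset.coe_union, Finset.coe_filter, Finset.mem_range, Set.mem_union,
        Set.mem_ofPred_eq, hdeps]
      rcases hlt with h | h
      · exact Or.inl ⟨h, hc⟩
      · exact Or.inr ⟨h, hc⟩
    refine (Set.ncard_le_ncard hsub (Finset.finite_toSet _)).trans ?_
    rw [Set.ncard_coe_finset]
    exact Finset.card_union_le _ _
  have h2 : ∀ vs, ∑ c, a c vs ≤ b * (rlist A i M vs).length := by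
    intro vs
    have : ∑ c, a c vs = ∑ j ∈ Finset.range (rlist A i M vs).length, (A.readDeps i M vs j).card := by
      simp only [ha, Finset.card_filter]
      rw [Finset.sum_comm]
      refine Finset.sum_congr rfl fun j _ => ?_
      rw [← Finset.card_filter, Finset.filter_univ_mem]
    rw [this]
    calc _ ≤ ∑ _j ∈ Finset.range (rlist A i M vs).length, b :=
          Finset.sum_le_sum fun j _ => hA i M vs j
      _ = _ := by rw [Finset.sum_const, Finset.card_range, smul_eq_mul, mul_comm]
  have h3 : ∑ vs : Fin n → Vec n, ∑ c, a c (flipBit vs i c) =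
      ∑ vs : Fin n → Vec n, ∑ c, a c vs := by
    rw [Finset.sum_comm, Finset.sum_comm (s := (univ : Finset (Fin n → Vec n)))
      (f := fun vs c => a c vs)]
    exact Finset.sum_congr rfl fun c _ => sum_flipBit i c (fun vs => a c vs)
  calc ∑ vs : Fin n → Vec n, ∑ c, (diffPos (rlist A i M vs) (rlist A i M (flipBit vs i c))).ncard
      ≤ ∑ vs : Fin n → Vec n, ∑ c, (a c vs + a c (flipBit vs i c)) :=
        Finset.sum_le_sum fun vs _ => Finset.sum_le_sum fun c _ => h1 vs c
    _ = ∑ vs : Fin n → Vec n, ∑ c, a c vs + ∑ vs : Fin n → Vec n, ∑ c, a c (flipBit vs i c) := by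
        simp only [Finset.sum_add_distrib]
    _ = ∑ vs : Fin n → Vec n, ∑ c, a c vs + ∑ vs : Fin n → Vec n, ∑ c, a c vs := by
        rw [h3]
    _ ≤ ∑ vs : Fin n → Vec n, b * (rlist A i M vs).length +
        ∑ vs : Fin n → Vec n, b * (rlist A i M vs).length :=
        Nat.add_le_add (Finset.sum_le_sum fun vs _ => h2 vs) (Finset.sum_le_sum fun vs _ => h2 vs)
    _ = _ := by rw [← Finset.mul_sum]; ring

theorem expSens_le (R : RandAlg n S w) {b : ℕ} (hR : R.InputLocal b) :
    avgInput R.expSens ≤ 2 * b * avgInput R.expProbes := by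
  have h0 : ∀ ω M, ∑ vs : Fin n → Vec n, (R.alg ω).sensCost M vs ≤
      2 * b * ∑ vs : Fin n → Vec n, (R.alg ω).probes M vs := by
    intro ω M
    have : ∀ vs, (R.alg ω).probes M vs = ∑ i, (rlist (R.alg ω) i M vs).length := by
      intro vs
      unfold OnlineAlg.probes
      refine Finset.sum_congr rfl fun i _ => ?_
      rw [rlist, Strat.reads_length]
    simp only [this]
    unfold OnlineAlg.sensCost
    rw [Finset.sum_comm, Finset.sum_comm (s := (univ : Finset (Fin n → Vec n)))
      (f := fun vs i => (rlist (R.alg ω) i M vs).length), Finset.mul_sum]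
    exact Finset.sum_le_sum fun i _ => sum_sens_le (R.alg ω) (hR ω) i M
  have h1 : ∑ M : Mat n, ∑ vs : Fin n → Vec n, R.expSens M vs ≤
      2 * b * ∑ M : Mat n, ∑ vs : Fin n → Vec n, R.expProbes M vs := by
    rw [Finset.mul_sum]
    refine Finset.sum_le_sum fun M _ => ?_
    unfold RandAlg.expSens RandAlg.expProbes
    rw [Finset.sum_comm, Finset.sum_comm (s := (univ : Finset (Fin n → Vec n))), Finset.mul_sum]
    refine Finset.sum_le_sum fun ω _ => ?_
    rw [← Finset.mul_sum, ← Finset.mul_sum]
    have h2 : (∑ vs : Fin n → Vec n, ((R.alg ω).sensCost M vs : ℝ)) ≤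
        2 * b * ∑ vs : Fin n → Vec n, ((R.alg ω).probes M vs : ℝ) := by
      exact_mod_cast h0 ω M
    calc _ ≤ R.prob ω * (2 * b * ∑ vs : Fin n → Vec n, ((R.alg ω).probes M vs : ℝ)) :=
          mul_le_mul_of_nonneg_left h2 (R.prob_nonneg ω)
      _ = _ := by ring
  unfold avgInput
  rw [← mul_div_assoc]
  gcongr

/-- One deterministic algorithm, one round. -/
theorem input_round (A : OnlineAlg n S w) (i : Fin n) (hn : 1 ≤ n) (Δ k : ℕ) (hk : k = n / 6 + 1)
    (hΔ : 12 * ((Δ * 2 ^ w + n * (Δ * (2 ^ w + 1)) + 1) ^ Δ * 2 ^ n * 2 ^ (n * (n - k))) ≤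
      2 ^ (n * n)) :
    ∑ _M : Mat n, ∑ _vs : Fin n → Vec n, (3 / 4 : ℝ) ≤
      (∑ M : Mat n, ∑ vs : Fin n → Vec n, (kap A i M vs : ℝ)) / (Δ + 1) +
      2 * ∑ M : Mat n, ∑ vs : Fin n → Vec n,
        (open Classical in if A.Correct M vs then (0 : ℝ) else 1) := by
  classical
  set e : Mat n → (Fin n → Vec n) → ℝ := fun M vs =>
    if outp A i M vs = M.mulVec (vs i) then 0 else 1 with he
  have hnpos : (0 : ℝ) < n := by exact_mod_cast hn
  have he1 : ∀ M vs, e M vs ≤ (if A.Correct M vs then (0 : ℝ) else 1) := by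
    intro M vs
    simp only [he]
    by_cases h : A.Correct M vs
    · have hi : outp A i M vs = M.mulVec (vs i) := h i
      rw [if_pos h, if_pos hi]
    · rw [if_neg h]
      split_ifs <;> norm_num
  have he0 : ∀ M vs, 0 ≤ e M vs := by
    intro M vs; simp only [he]; split_ifs <;> norm_num
  -- lower bound for the number of good bits
  have hgood : ∀ M vs, (n : ℝ) - n * e M vs - ∑ c, e M (flipBit vs i c) ≤
      ((goodBits A i M vs).card : ℝ) := by
    intro M vs
    have hc : ((goodBits A i M vs).card : ℝ) = ∑ c : Fin n, (if c ∈ goodBits A i M vs then (1 : ℝ) else 0) := by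
      rw [Finset.sum_ite_mem, Finset.univ_inter]
      simp
    rw [hc]
    have hn' : (n : ℝ) - n * e M vs - ∑ c, e M (flipBit vs i c) =
        ∑ c : Fin n, (1 - e M vs - e M (flipBit vs i c)) := by
      simp only [Finset.sum_sub_distrib, Finset.sum_const, Finset.card_univ, Fintype.card_fin,
        nsmul_eq_mul, mul_one]
    rw [hn']
    refine Finset.sum_le_sum fun c _ => ?_
    by_cases h1 : outp A i M vs = M.mulVec (vs i)
    · by_cases h2 : outp A i M (flipBit vs i c) = M.mulVec (flipBit vs i c i)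
      · have hmem : c ∈ goodBits A i M vs := by
          simp only [goodBits, Finset.mem_filter, Finset.mem_univ, true_and]
          exact ⟨h1, h2⟩
        rw [if_pos hmem]
        have := he0 M vs
        have := he0 M (flipBit vs i c)
        linarith
      · have : e M (flipBit vs i c) = 1 := by simp only [he]; rw [if_neg h2]
        rw [this]
        have h3 := he0 M vs
        have : (0 : ℝ) ≤ (if c ∈ goodBits A i M vs then (1 : ℝ) else 0) := by
          split_ifs <;> norm_num
        linarith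
    · have : e M vs = 1 := by simp only [he]; rw [if_neg h1]
      rw [this]
      have h3 := he0 M (flipBit vs i c)
      have : (0 : ℝ) ≤ (if c ∈ goodBits A i M vs then (1 : ℝ) else 0) := by
        split_ifs <;> norm_num
      linarith
  -- upper bound
  have hup : ∀ M vs, ((goodBits A i M vs).card : ℝ) ≤ n / 6 + n * ((kap A i M vs : ℝ) / (Δ + 1)) +
      n * (if kap A i M vs ≤ Δ ∧ k ≤ (goodBits A i M vs).card then (1 : ℝ) else 0) := by
    intro M vs
    have hcard : ((goodBits A i M vs).card : ℝ) ≤ n := by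
      have := Finset.card_le_univ (goodBits A i M vs)
      rw [Fintype.card_fin] at this
      exact_mod_cast this
    have hk0 : (0 : ℝ) ≤ (kap A i M vs : ℝ) / (Δ + 1) := by positivity
    by_cases h1 : kap A i M vs ≤ Δ
    · by_cases h2 : k ≤ (goodBits A i M vs).card
      · rw [if_pos ⟨h1, h2⟩]
        nlinarith
      · rw [if_neg (fun h => h2 h.2)]
        have h3 : (goodBits A i M vs).card ≤ n / 6 := by omega
        have h4 : 6 * (goodBits A i M vs).card ≤ n := by omega
        have h5 : 6 * ((goodBits A i M vs).card : ℝ) ≤ n := by exact_mod_cast h4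
        nlinarith
    · rw [if_neg (fun h => h1 h.1)]
      have h2 : (1 : ℝ) ≤ (kap A i M vs : ℝ) / (Δ + 1) := by
        rw [le_div_iff₀ (by positivity)]
        have : Δ + 1 ≤ kap A i M vs := by omega
        rw [one_mul]
        exact_mod_cast this
      nlinarith
  -- sums
  have hflip : ∀ M, ∑ vs : Fin n → Vec n, ∑ c, e M (flipBit vs i c) = n * ∑ vs, e M vs := by
    intro M
    rw [Finset.sum_comm]
    have : ∀ c, ∑ vs : Fin n → Vec n, e M (flipBit vs i c) = ∑ vs, e M vs := fun c =>
      sum_flipBit i c (fun vs => e M vs)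
    simp only [this, Finset.sum_const, Finset.card_univ, Fintype.card_fin, nsmul_eq_mul]
  have hG : ∀ vs : Fin n → Vec n, 12 * ∑ M : Mat n,
      (if kap A i M vs ≤ Δ ∧ k ≤ (goodBits A i M vs).card then (1 : ℝ) else 0) ≤
      ∑ _M : Mat n, (1 : ℝ) := by
    intro vs
    rw [Finset.sum_boole]
    have h1 := card_bad_le A i vs Δ k
    have h2 : 12 * (univ.filter fun M : Mat n => kap A i M vs ≤ Δ ∧
        k ≤ (goodBits A i M vs).card).card ≤ 2 ^ (n * n) :=
      (Nat.mul_le_mul_left 12 h1).trans hΔ
    have h3 : Fintype.card (Mat n) = 2 ^ (n * n) := by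
      rw [Fintype.card_congr (Matrix.of (m := Fin n) (n := Fin n) (α := ZMod 2)).symm]
      simp [ZMod.card, ← pow_mul]
    rw [Finset.sum_const, Finset.card_univ, h3, nsmul_eq_mul, mul_one]
    exact_mod_cast h2
  have hGsum : 12 * ∑ M : Mat n, ∑ vs : Fin n → Vec n,
      (if kap A i M vs ≤ Δ ∧ k ≤ (goodBits A i M vs).card then (1 : ℝ) else 0) ≤
      ∑ _M : Mat n, ∑ _vs : Fin n → Vec n, (1 : ℝ) := by
    rw [Finset.sum_comm, Finset.sum_comm (f := fun (_M : Mat n) (_vs : Fin n → Vec n) => (1 : ℝ)),
      Finset.mul_sum]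
    exact Finset.sum_le_sum fun vs _ => hG vs
  have hall : ∑ M : Mat n, ∑ vs : Fin n → Vec n,
      ((n : ℝ) - n * e M vs - ∑ c, e M (flipBit vs i c)) ≤
      ∑ M : Mat n, ∑ vs : Fin n → Vec n, ((n : ℝ) / 6 + n * ((kap A i M vs : ℝ) / (Δ + 1)) +
      n * (if kap A i M vs ≤ Δ ∧ k ≤ (goodBits A i M vs).card then (1 : ℝ) else 0)) :=
    Finset.sum_le_sum fun M _ => Finset.sum_le_sum fun vs _ => (hgood M vs).trans (hup M vs)
  have hesum : ∑ M : Mat n, ∑ vs : Fin n → Vec n, e M vs ≤
      ∑ M : Mat n, ∑ vs : Fin n → Vec n, (if A.Correct M vs then (0 : ℝ) else 1) :=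
    Finset.sum_le_sum fun M _ => Finset.sum_le_sum fun vs _ => he1 M vs
  simp only [Finset.sum_sub_distrib, Finset.sum_add_distrib, hflip, ← Finset.mul_sum,
    ← Finset.sum_div] at hall
  simp only [Finset.sum_const, nsmul_eq_mul, mul_one, Finset.card_univ] at hall hGsum ⊢
  set N : ℝ := (Fintype.card (Mat n) : ℝ) * (Fintype.card (Fin n → Vec n) : ℝ) with hN
  set s1 := (∑ M : Mat n, ∑ vs : Fin n → Vec n, (kap A i M vs : ℝ)) / (Δ + 1) with hs1
  set s2 := ∑ M : Mat n, ∑ vs : Fin n → Vec n, e M vs with hs2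
  set s3 := ∑ M : Mat n, ∑ vs : Fin n → Vec n,
      (if kap A i M vs ≤ Δ ∧ k ≤ (goodBits A i M vs).card then (1 : ℝ) else 0) with hs3
  have h5 : (n : ℝ) * (N * (3 / 4)) ≤ n * (s1 + 2 * s2) := by
    have e1 : (n : ℝ) * (s1 + 2 * s2) = n * s1 + 2 * (n * s2) := by ring
    rw [e1]
    have e2 : (Fintype.card (Mat n) : ℝ) * ((Fintype.card (Fin n → Vec n) : ℝ) * n) = n * N := by
      rw [hN]; ring
    have e3 : (Fintype.card (Mat n) : ℝ) * ((Fintype.card (Fin n → Vec n) : ℝ) * (n / 6)) =
        n * N / 6 := by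
      rw [hN]; ring
    have e4 : (n : ℝ) * (12 * s3) ≤ n * N := by
      refine mul_le_mul_of_nonneg_left ?_ hnpos.le
      linarith
    nlinarith
  have h6 := le_of_mul_le_mul_left h5 hnpos
  have e5 : (Fintype.card (Mat n) : ℝ) * ((Fintype.card (Fin n → Vec n) : ℝ) * (3 / 4)) =
      N * (3 / 4) := by rw [hN]; ring
  rw [e5]
  linarith

end Pool.Agent.Work.MP_0f1f76_lc
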