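import Pool.Agent.Work.MP_0f1f76_lc.Defs

/-!
# What the reads of an online algorithm depend on

Definitions used by the hand-in `InputLocalLowerBound`.
-/

namespace Pool.Agent.Work.MP_0f1f76_lc

/-- The contents read by a strategy, in order, when the memory contents are `mem`. -/
def Strat.reads {Cell Content Out : Type} (mem : Cell → Content) :
    Strat Cell Content Out → List Content
  | .answer _ => []
  | .probe c next => mem c :: (next (mem c)).reads mem

/-- Change bit `c` of the `i`-th vector. -/
def flipBit {n : ℕ} (vs : Fin n → Vec n) (i c : Fin n) : Fin n → Vec n :=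
  Function.update vs i (vs i + Pi.single c 1)

namespace OnlineAlg

variable {n S w : ℕ}

/-- The content read by the `j`-th probe (`j = 0, 1, …`) of round `i` on the input `M`, `vs`;
it is `none` if round `i` makes at most `j` probes. -/
def read (A : OnlineAlg n S w) (i : Fin n) (M : Mat n) (vs : Fin n → Vec n) (j : ℕ) :
    Option (Word w) :=
  ((A.query i vs).reads (A.mem i vs M))[j]?

/-- The sensitivity cost on the input `M`, `vs`: the number of triples `(i, j, c)` such that
changing the bit `c` of the `i`-th vector changes the content read by the `j`-th probe of
round `i`. -/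
noncomputable def sensCost (A : OnlineAlg n S w) (M : Mat n) (vs : Fin n → Vec n) : ℕ :=
  ∑ i, ∑ c, {j : ℕ | A.read i M (flipBit vs i c) j ≠ A.read i M vs j}.ncard

/-- The set of bits of the `i`-th vector on which the content read by the `j`-th probe of round
`i` depends, when the matrix and the other vectors are fixed. -/
noncomputable def readDeps (A : OnlineAlg n S w) (i : Fin n) (M : Mat n) (vs : Fin n → Vec n)
    (j : ℕ) : Finset (Fin n) :=
  open Classical in
  Finset.univ.filter fun c => ∃ v : Vec n,
    A.read i M (Function.update vs i (v + Pi.single c 1)) j ≠ A.read i M (Function.update vs i v) j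

/-- The algorithm is `b`-input-local: every content read depends on at most `b` bits of the
current vector (but arbitrarily on the matrix and on the earlier vectors). -/
def InputLocal (A : OnlineAlg n S w) (b : ℕ) : Prop :=
  ∀ i M vs j, (A.readDeps i M vs j).card ≤ b

end OnlineAlg

namespace RandAlg

variable {n S w : ℕ}

/-- The expected sensitivity cost on the input `M`, `vs`. -/
noncomputable def expSens (R : RandAlg n S w) (M : Mat n) (vs : Fin n → Vec n) : ℝ :=
  ∑ ω, R.prob ω * ((R.alg ω).sensCost M vs : ℝ)

/-- Every deterministic algorithm in the support family is `b`-input-local. -/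
def InputLocal (R : RandAlg n S w) (b : ℕ) : Prop := ∀ ω, (R.alg ω).InputLocal b

end RandAlg

end Pool.Agent.Work.MP_0f1f76_lc
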