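import Pool.Agent.Work.MP_0f1f76_lc.ReadDefs

/-!
# Encoding a list and its variations by a small set of tokens
-/

namespace Pool.Agent.Work.MP_0f1f76_lc

open Finset

/-- The positions at which two lists differ. -/
def diffPos {W : Type} (L L' : List W) : Set ℕ := {j | L'[j]? ≠ L[j]?}

theorem diffPos_subset {W : Type} (L L' : List W) :
    diffPos L L' ⊆ Set.Iio (max L.length L'.length) := by
  intro j hj
  by_contra hcon
  simp only [Set.mem_Iio, not_lt, max_le_iff] at hcon
  apply hj
  rw [List.getElem?_eq_none hcon.1, List.getElem?_eq_none hcon.2]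

theorem diffPos_finite {W : Type} (L L' : List W) : (diffPos L L').Finite :=
  (Set.finite_Iio _).subset (diffPos_subset L L')

theorem length_le_of_diffPos {W : Type} (L L' : List W) :
    L'.length ≤ L.length + (diffPos L L').ncard := by
  have h : Set.Ico L.length L'.length ⊆ diffPos L L' := by
    intro j hj
    obtain ⟨h1, h2⟩ := hj
    simp only [diffPos, Set.mem_ofPred_eq]
    rw [List.getElem?_eq_none h1, List.getElem?_eq_getElem h2]
    simp
  have h2 := Set.ncard_le_ncard h (diffPos_finite L L')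
  have h3 : (Set.Ico L.length L'.length).ncard = L'.length - L.length := by
    rw [Set.ncard_eq_toFinset_card']
    simp
  omega

variable {W ι : Type} [Fintype W] [DecidableEq W] [Fintype ι] [DecidableEq ι]

/-- Tokens. -/
abbrev Tok (W ι : Type) (Δ : ℕ) : Type := (Fin Δ × W) ⊕ (ι × Fin Δ × Option W)

/-- The tokens of a list `L` and variations `L' c`. -/
def IsTok {W ι : Type} {Δ : ℕ} (L : List W) (L' : ι → List W) : Tok W ι Δ → Prop
    | Sum.inl p => L[(p.1 : ℕ)]? = some p.2
    | Sum.inr p => (L' p.1)[(p.2.1 : ℕ)]? = p.2.2 ∧ L[(p.2.1 : ℕ)]? ≠ p.2.2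

/-- The token set of a list `L` and variations `L' c`. -/
noncomputable def tokens (Δ : ℕ) (L : List W) (L' : ι → List W) : Finset (Tok W ι Δ) :=
  open Classical in Finset.univ.filter fun t => IsTok L L' t

omit [DecidableEq W] [DecidableEq ι] in
theorem mem_tokens {Δ : ℕ} {L : List W} {L' : ι → List W} {t : Tok W ι Δ} :
    t ∈ tokens Δ L L' ↔ IsTok L L' t := by
  simp [tokens]

theorem card_tokens_le (Δ : ℕ) (L : List W) (L' : ι → List W) :
    (tokens Δ L L').card ≤ L.length + ∑ c, (diffPos L (L' c)).ncard := by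
  classical
  have hsub : tokens Δ L L' ⊆
      ((Finset.univ.filter fun p : Fin Δ × W => L[(p.1 : ℕ)]? = some p.2).map
        ⟨Sum.inl, Sum.inl_injective⟩) ∪
      ((Finset.univ.filter fun p : ι × Fin Δ × Option W =>
        (L' p.1)[(p.2.1 : ℕ)]? = p.2.2 ∧ L[(p.2.1 : ℕ)]? ≠ p.2.2).map
        ⟨Sum.inr, Sum.inr_injective⟩) := by
    intro t ht
    rw [mem_tokens] at ht
    rcases t with ⟨j, x⟩ | ⟨c, j, o⟩
    · simp only [Finset.mem_union, Finset.mem_map, Finset.mem_filter, Finset.mem_univ, true_and,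
        Function.Embedding.coeFn_mk]
      exact Or.inl ⟨(j, x), ht, rfl⟩
    · simp only [Finset.mem_union, Finset.mem_map, Finset.mem_filter, Finset.mem_univ, true_and,
        Function.Embedding.coeFn_mk]
      exact Or.inr ⟨(c, j, o), ht, rfl⟩
  refine (Finset.card_le_card hsub).trans ((Finset.card_union_le _ _).trans ?_)
  rw [Finset.card_map, Finset.card_map]
  refine Nat.add_le_add ?_ ?_
  · -- base part
    have : ((Finset.univ.filter fun p : Fin Δ × W => L[(p.1 : ℕ)]? = some p.2)).card ≤
        (Finset.range L.length).card := by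
      refine Finset.card_le_card_of_injOn (fun p => (p.1 : ℕ)) ?_ ?_
      · rintro ⟨j, x⟩ hp
        simp only [Finset.coe_filter, Finset.mem_univ, true_and, Set.mem_ofPred_eq] at hp
        simp only [Finset.coe_range, Set.mem_Iio]
        by_contra hcon
        rw [List.getElem?_eq_none (not_lt.mp hcon)] at hp
        exact absurd hp (by simp)
      · rintro ⟨j, x⟩ hp ⟨j', x'⟩ hp' heq
        simp only [Finset.coe_filter, Finset.mem_univ, true_and, Set.mem_ofPred_eq] at hp hp'
        have hj : j = j' := Fin.ext heq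
        subst hj
        rw [hp] at hp'
        simpa using hp'
    simpa using this
  · have h1 : (Finset.univ.filter fun p : ι × Fin Δ × Option W =>
        (L' p.1)[(p.2.1 : ℕ)]? = p.2.2 ∧ L[(p.2.1 : ℕ)]? ≠ p.2.2).card ≤
        (Finset.univ.sigma fun c : ι => (diffPos_finite L (L' c)).toFinset).card := by
      refine Finset.card_le_card_of_injOn (fun p => ⟨p.1, (p.2.1 : ℕ)⟩) ?_ ?_
      · rintro ⟨c, j, o⟩ hp
        simp only [Finset.coe_filter, Finset.mem_univ, true_and, Set.mem_ofPred_eq] at hp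
        simp only [Finset.coe_sigma, Finset.coe_univ, Set.mem_sigma_iff, Set.mem_univ, true_and,
          Set.Finite.coe_toFinset, diffPos, Set.mem_ofPred_eq]
        rw [hp.1]
        exact fun h => hp.2 h.symm
      · rintro ⟨c, j, o⟩ hp ⟨c', j', o'⟩ hp' heq
        simp only [Finset.coe_filter, Finset.mem_univ, true_and, Set.mem_ofPred_eq] at hp hp'
        simp only [Sigma.mk.injEq, heq_eq_eq] at heq
        obtain ⟨rfl, hj⟩ := heq
        have hj : j = j' := Fin.ext hj
        subst hj
        rw [← hp.1, ← hp'.1]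
    refine h1.trans (le_of_eq ?_)
    rw [Finset.card_sigma]
    refine Finset.sum_congr rfl fun c _ => ?_
    rw [Set.ncard_eq_toFinset_card _ (diffPos_finite L (L' c))]

/-- The token set determines the lists, when the total size is at most `Δ`. -/
theorem tokens_injective (Δ : ℕ) (L₁ L₂ : List W) (L₁' L₂' : ι → List W)
    (h₁ : L₁.length + ∑ c, (diffPos L₁ (L₁' c)).ncard ≤ Δ)
    (h₂ : L₂.length + ∑ c, (diffPos L₂ (L₂' c)).ncard ≤ Δ)
    (heq : tokens Δ L₁ L₁' = tokens Δ L₂ L₂') : L₁ = L₂ ∧ L₁' = L₂' := by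
  classical
  have hbase : L₁ = L₂ := by
    apply List.ext_getElem?
    intro j
    by_cases hj : j < Δ
    · have hx : ∀ x, L₁[j]? = some x ↔ L₂[j]? = some x := by
        intro x
        have h1 : (Sum.inl (⟨j, hj⟩, x) : Tok W ι Δ) ∈ tokens Δ L₁ L₁' ↔
            (Sum.inl (⟨j, hj⟩, x) : Tok W ι Δ) ∈ tokens Δ L₂ L₂' := by rw [heq]
        simpa [mem_tokens, IsTok] using h1
      rcases h : L₂[j]? with _ | x
      · rcases h' : L₁[j]? with _ | x
        · rfl
        · rw [hx x, h] at h'
          exact h'.symm ▸ rfl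
      · exact (hx x).2 h
    · rw [List.getElem?_eq_none (by omega), List.getElem?_eq_none (by omega)]
  subst hbase
  refine ⟨rfl, ?_⟩
  funext c
  have hc₁ : (diffPos L₁ (L₁' c)).ncard ≤ ∑ c, (diffPos L₁ (L₁' c)).ncard :=
    Finset.single_le_sum (f := fun c => (diffPos L₁ (L₁' c)).ncard) (fun _ _ => Nat.zero_le _)
      (Finset.mem_univ c)
  have hc₂ : (diffPos L₁ (L₂' c)).ncard ≤ ∑ c, (diffPos L₁ (L₂' c)).ncard :=
    Finset.single_le_sum (f := fun c => (diffPos L₁ (L₂' c)).ncard) (fun _ _ => Nat.zero_le _)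
      (Finset.mem_univ c)
  have hl₁ := length_le_of_diffPos L₁ (L₁' c)
  have hl₂ := length_le_of_diffPos L₁ (L₂' c)
  apply List.ext_getElem?
  intro j
  by_cases hj : j < Δ
  · have ho : ∀ o, ((L₁' c)[j]? = o ∧ L₁[j]? ≠ o) ↔ ((L₂' c)[j]? = o ∧ L₁[j]? ≠ o) := by
      intro o
      have h1 : (Sum.inr (c, ⟨j, hj⟩, o) : Tok W ι Δ) ∈ tokens Δ L₁ L₁' ↔
          (Sum.inr (c, ⟨j, hj⟩, o) : Tok W ι Δ) ∈ tokens Δ L₁ L₂' := by rw [heq]
      rwa [mem_tokens, mem_tokens] at h1
    by_cases h : L₁[j]? = (L₁' c)[j]?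
    · by_cases h' : L₁[j]? = (L₂' c)[j]?
      · rw [← h, ← h']
      · exact ((ho _).2 ⟨rfl, h'⟩).1
    · exact ((ho _).1 ⟨rfl, h⟩).1.symm
  · rw [List.getElem?_eq_none (by omega), List.getElem?_eq_none (by omega)]

/-- The number of small subsets of a finite type. -/
theorem card_small_finsets (T : Type) [Fintype T] [DecidableEq T] (Δ : ℕ) :
    ((Finset.univ : Finset (Finset T)).filter fun s => s.card ≤ Δ).card ≤
      (Fintype.card T + 1) ^ Δ := by
  classical
  have h : ((Finset.univ : Finset (Finset T)).filter fun s => s.card ≤ Δ) ⊆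
      (Finset.univ : Finset (Fin Δ → Option T)).image
        (fun f => Finset.univ.filter fun t => ∃ j, f j = some t) := by
    intro s hs
    simp only [Finset.mem_filter, Finset.mem_univ, true_and] at hs
    simp only [Finset.mem_image, Finset.mem_univ, true_and]
    refine ⟨fun j => if hj : (j : ℕ) < s.card then some (s.equivFin.symm ⟨j, hj⟩ : T) else none, ?_⟩
    ext t
    simp only [Finset.mem_filter, Finset.mem_univ, true_and]
    constructor
    · rintro ⟨j, hj⟩
      split_ifs at hj with h1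
      · simp only [Option.some.injEq] at hj
        rw [← hj]
        exact (s.equivFin.symm ⟨j, h1⟩).2
    · intro ht
      have h1 := (s.equivFin ⟨t, ht⟩).2
      refine ⟨⟨(s.equivFin ⟨t, ht⟩ : ℕ), lt_of_lt_of_le h1 hs⟩, ?_⟩
      simp [h1]
  refine (Finset.card_le_card h).trans (Finset.card_image_le.trans (le_of_eq ?_))
  rw [Finset.card_univ, Fintype.card_fun, Fintype.card_option, Fintype.card_fin]

end Pool.Agent.Work.MP_0f1f76_lc
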